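import Pool.Agent.Helper72.AI.Pieces

set_option autoImplicit false

namespace AffInc.Cert

open AffInc

lemma AA_le (h : C_elem) (n : Fin 3 → ℝ) (hn : ∀ i, 0 ≤ n i) (hL : 0 < ∑ i, n i) (e : ℝ)
    (he : ∀ i, eps n i ≤ e) : AA n ≤ 2 * e := by
  obtain ⟨h1, h2, h3, h4, h5, h6, h7⟩ := h n hn hL
  rw [h4]
  have hle : ∀ i, n i ≤ ∑ k, n k := fun i => Finset.single_le_sum (fun k _ => hn k) (Finset.mem_univ i)
  have hb : ∀ i, (1 - n i / ∑ k, n k) * eps n i ≤ (1 - n i / ∑ k, n k) * e := by
    intro i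
    apply mul_le_mul_of_nonneg_left (he i)
    have : n i / ∑ k, n k ≤ 1 := by rw [div_le_one hL]; exact hle i
    linarith
  calc ∑ i, (1 - n i / ∑ k, n k) * eps n i ≤ ∑ i, (1 - n i / ∑ k, n k) * e :=
        Finset.sum_le_sum (fun i _ => hb i)
    _ = 2 * e := by
        rw [← Finset.sum_mul]
        have : ∑ i : Fin 3, (1 - n i / ∑ k, n k) = 2 := by
          rw [Finset.sum_sub_distrib, ← Finset.sum_div, div_self hL.ne']
          simp
          norm_num
        rw [this]

lemma eps_le (h : C_elem) (n : Fin 3 → ℝ) (hn : ∀ i, 0 ≤ n i) (hL : 0 < ∑ i, n i) (i : Fin 3) :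
    eps n i ≤ 1 / (1 + ∑ k, n k) := by
  obtain ⟨h1, h2, h3, h4, h5, h6, h7⟩ := h n hn hL
  rw [le_div_iff₀ (by positivity)]
  exact h2 i

/-- transfer from a constant `e` to `1/(1+L)` -/
lemma UA_of (h : C_elem) (n : Fin 3 → ℝ) (hn : ∀ i, 0 ≤ n i) (hL : 0 < ∑ i, n i) (e : ℝ)
    (he : 1 / (1 + ∑ i, n i) ≤ e)
    (hp : (0.4 - 0.16 * e) * AA n ≤ 0.385 * (4 - QQ n) - (0.54 + 0.16 * e ^ 2)) :
    (0.4 - 0.16 / (1 + ∑ i, n i)) * AA n ≤ 1 - 0.16 / (1 + ∑ i, n i) ^ 2 - 0.385 * QQ n := by
  have hA := AA_le h n hn hL _ (eps_le h n hn hL)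
  set x := 1 / (1 + ∑ i, n i) with hx
  have hx0 : 0 < x := by positivity
  have e1 : 0.16 / (1 + ∑ i, n i) = 0.16 * x := by rw [hx]; ring
  have e2 : 0.16 / (1 + ∑ i, n i) ^ 2 = 0.16 * x ^ 2 := by rw [hx]; field_simp
  rw [e1, e2]
  nlinarith [mul_nonneg (sub_nonneg.2 he) (sub_nonneg.2 hA), sq_nonneg (e - x)]

lemma UZ_of (h : C_elem) (n : Fin 3 → ℝ) (hn : ∀ i, 0 ≤ n i) (hL : 0 < ∑ i, n i) (e : ℝ)
    (he : 1 / (1 + ∑ i, n i) ≤ e)
    (hp : (1 / 3 - e / 9) * AA n ≤ 0.4141 * (4 - QQ n) - (4 * 0.4141 - 1 + e ^ 2 / 9)) :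
    (1 / 3 - 1 / (9 * (1 + ∑ i, n i))) * AA n ≤ 1 - 1 / (9 * (1 + ∑ i, n i) ^ 2) - 0.4141 * QQ n := by
  have hA := AA_le h n hn hL _ (eps_le h n hn hL)
  set x := 1 / (1 + ∑ i, n i) with hx
  have hx0 : 0 < x := by positivity
  have e1 : 1 / (9 * (1 + ∑ i, n i)) = x / 9 := by rw [hx]; field_simp
  have e2 : 1 / (9 * (1 + ∑ i, n i) ^ 2) = x ^ 2 / 9 := by rw [hx]; field_simp
  rw [e1, e2]
  nlinarith [mul_nonneg (sub_nonneg.2 he) (sub_nonneg.2 hA), sq_nonneg (e - x)]

theorem pf_C_UA0 (h : C_elem) : C_UA0 := by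
  intro n L hn hL h1 h2
  subst hL
  apply UZ_of h n hn (by linarith) (2 / 3)
  · rw [div_le_div_iff₀ (by linarith) (by norm_num)]; linarith
  · have := UZ0_piece n hn (by linarith) (by linarith)
    norm_num at this ⊢
    linarith

theorem pf_C_UA (h : C_elem) : C_UA := by
  intro n L hn hL h1 h2
  subst hL
  have hpos : 0 < ∑ i, n i := by linarith
  rcases le_total (∑ i, n i) 0.7 with k1 | k1
  · apply UA_of h n hn hpos (1 / 1.6)
    · rw [div_le_div_iff₀ (by linarith) (by norm_num)]; linarith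
    · have := UA0_piece n hn (by linarith) (by linarith)
      norm_num at this ⊢
      linarith
  rcases le_total (∑ i, n i) 0.8 with k2 | k2
  · apply UA_of h n hn hpos (1 / 1.7)
    · rw [div_le_div_iff₀ (by linarith) (by norm_num)]; linarith
    · have := UA1_piece n hn (by linarith) (by linarith)
      norm_num at this ⊢
      linarith
  rcases le_total (∑ i, n i) 0.9 with k3 | k3
  · apply UA_of h n hn hpos (1 / 1.8)
    · rw [div_le_div_iff₀ (by linarith) (by norm_num)]; linarith
    · have := UA2_piece n hn (by linarith) (by linarith)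
      norm_num at this ⊢
      linarith
  rcases le_total (∑ i, n i) 1 with k4 | k4
  · apply UA_of h n hn hpos (1 / 1.9)
    · rw [div_le_div_iff₀ (by linarith) (by norm_num)]; linarith
    · have := UA3_piece n hn (by linarith) (by linarith)
      norm_num at this ⊢
      linarith
  rcases le_total (∑ i, n i) 1.1 with k5 | k5
  · apply UA_of h n hn hpos (1 / 2)
    · rw [div_le_div_iff₀ (by linarith) (by norm_num)]; linarith
    · have := UA4_piece n hn (by linarith) (by linarith)
      norm_num at this ⊢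
      linarith
  rcases le_total (∑ i, n i) 1.2 with k6 | k6
  · apply UA_of h n hn hpos (1 / 2.1)
    · rw [div_le_div_iff₀ (by linarith) (by norm_num)]; linarith
    · have := UA5_piece n hn (by linarith) (by linarith)
      norm_num at this ⊢
      linarith
  · apply UA_of h n hn hpos (1 / 2.2)
    · rw [div_le_div_iff₀ (by linarith) (by norm_num)]; linarith
    · have := UA6_piece n hn (by linarith) (by linarith)
      norm_num at this ⊢
      linarith

/-- from slope `C` to slope `0.827` -/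
lemma UB_of (C A Q : ℝ) (hC : C ≤ 0.827) (hQ : Q ≤ 2.4185)
    (h : 1 * A ≤ C * (4 - Q) - (1.5815 * C - 0.276)) : A ≤ 0.276 + 0.827 * (2.4185 - Q) := by
  nlinarith [mul_nonneg (sub_nonneg.2 hC) (sub_nonneg.2 hQ)]

theorem pf_C_UB (h : C_elem) : C_UB := by
  intro n hn hL hQ
  have hpos : 0 < ∑ i, n i := by linarith
  rcases le_total (∑ i, n i) 1.4 with k | k0
  · apply UB_of 0.827 _ _ (by norm_num) hQ
    have := UB0_piece n hn (by linarith) (by linarith)
    norm_num at this ⊢; linarith
  rcases le_total (∑ i, n i) 1.75 with k | k1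
  · apply UB_of 0.827 _ _ (by norm_num) hQ
    have := UB1_piece n hn (by linarith) (by linarith)
    norm_num at this ⊢; linarith
  rcases le_total (∑ i, n i) 2.3 with k | k2
  · apply UB_of 0.827 _ _ (by norm_num) hQ
    have := UB2_piece n hn (by linarith) (by linarith)
    norm_num at this ⊢; linarith
  rcases le_total (∑ i, n i) 2.7 with k | k3
  · apply UB_of 0.827 _ _ (by norm_num) hQ
    have := UB3_piece n hn (by linarith) (by linarith)
    norm_num at this ⊢; linarith
  rcases le_total (∑ i, n i) 2.9 with k | k4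
  · apply UB_of 0.65 _ _ (by norm_num) hQ
    have := UB4_piece n hn (by linarith) (by linarith)
    norm_num at this ⊢; linarith
  rcases le_total (∑ i, n i) 3.05 with k | k5
  · apply UB_of 0.6 _ _ (by norm_num) hQ
    have := UB5_piece n hn (by linarith) (by linarith)
    norm_num at this ⊢; linarith
  rcases le_total (∑ i, n i) 3.15 with k | k6
  · apply UB_of 0.55 _ _ (by norm_num) hQ
    have := UB6_piece n hn (by linarith) (by linarith)
    norm_num at this ⊢; linarith
  rcases le_total (∑ i, n i) 3.3 with k | k7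
  · apply UB_of 0.5 _ _ (by norm_num) hQ
    have := UB7_piece n hn (by linarith) (by linarith)
    norm_num at this ⊢; linarith
  rcases le_total (∑ i, n i) 3.5 with k | k8
  · apply UB_of 0.45 _ _ (by norm_num) hQ
    have := UB8_piece n hn (by linarith) (by linarith)
    norm_num at this ⊢; linarith
  rcases le_total (∑ i, n i) 3.8 with k | k9
  · apply UB_of 0.4 _ _ (by norm_num) hQ
    have := UB9_piece n hn (by linarith) (by linarith)
    norm_num at this ⊢; linarith
  rcases le_total (∑ i, n i) 4.3 with k | k10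
  · apply UB_of 0.35 _ _ (by norm_num) hQ
    have := UB10_piece n hn (by linarith) (by linarith)
    norm_num at this ⊢; linarith
  rcases le_total (∑ i, n i) 6.3 with k | k11
  · apply UB_of 0.25 _ _ (by norm_num) hQ
    have := UB11_piece n hn (by linarith) (by linarith)
    norm_num at this ⊢; linarith
  · have hA := AA_le h n hn hpos _ (eps_le h n hn hpos)
    have : 1 / (1 + ∑ i, n i) ≤ 1 / 7.3 := by
      apply one_div_le_one_div_of_le (by norm_num) (by linarith)
    have h3 : 2 * (1 / 7.3 : ℝ) ≤ 0.276 := by norm_num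
    have h4 : 0 ≤ 0.827 * (2.4185 - QQ n) := by
      apply mul_nonneg (by norm_num); linarith
    linarith

end AffInc.Cert
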