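import Pool.Agent.Helper72.AI.Basic

set_option autoImplicit false

/-! Statements of the packets for MP_870acd_co. Each `S_...` is a closed proposition. -/

namespace AffInc

open MeasureTheory

/-! ### Part 1: Blaschke's inequality with equality case -/

/-- normalised figure: contained in the strip `|x| ≤ 1`, touching it exactly at `(±1, 0)` -/
structure NormFig (G : Set (ℝ × ℝ)) : Prop where
  fig : Fig G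
  strip : ∀ p ∈ G, -1 ≤ p.1 ∧ p.1 ≤ 1
  right : ((1, 0) : ℝ × ℝ) ∈ G
  left : ((-1, 0) : ℝ × ℝ) ∈ G
  right_uniq : ∀ p ∈ G, p.1 = 1 → p.2 = 0
  left_uniq : ∀ p ∈ G, p.1 = -1 → p.2 = 0

/-- Every figure has a normalised affine image (take two points at maximum Euclidean distance). -/
def S_norm : Prop := ∀ G : Set (ℝ × ℝ), Fig G → ∃ X : Fin 3 → ℝ × ℝ, det3 X ≠ 0 ∧ NormFig (T X '' G)

/-- `g` parametrises the boundary of `G` by `θ ↦ (cos θ, g θ)`. -/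
structure Param (G : Set (ℝ × ℝ)) (g : ℝ → ℝ) : Prop where
  cont : Continuous g
  per : ∀ θ, g (θ + 2 * Real.pi) = g θ
  mem : ∀ θ, (Real.cos θ, g θ) ∈ G
  upper : ∀ θ, 0 ≤ Real.sin θ → ∀ y, (Real.cos θ, y) ∈ G → y ≤ g θ
  lower : ∀ θ, Real.sin θ ≤ 0 → ∀ y, (Real.cos θ, y) ∈ G → g θ ≤ y
  area_eq : area G = ∫ θ in (0:ℝ)..(2 * Real.pi), g θ * Real.sin θ

def S_param : Prop := ∀ G : Set (ℝ × ℝ), NormFig G → ∃ g : ℝ → ℝ, Param G g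

/-- the sum `g(θ) sin θ + g(θ+2π/3) sin(θ+2π/3) + g(θ+4π/3) sin(θ+4π/3)` -/
noncomputable def triSum (g : ℝ → ℝ) (θ : ℝ) : ℝ :=
  g θ * Real.sin θ + g (θ + 2 * Real.pi / 3) * Real.sin (θ + 2 * Real.pi / 3)
    + g (θ + 4 * Real.pi / 3) * Real.sin (θ + 4 * Real.pi / 3)

/-- integrate the pointwise bound; equality forces pointwise equality -/
def S_integrate : Prop := ∀ (g : ℝ → ℝ) (M : ℝ), Continuous g → (∀ θ, g (θ + 2 * Real.pi) = g θ) →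
  (∀ θ, triSum g θ ≤ M) →
  3 * (∫ θ in (0:ℝ)..(2 * Real.pi), g θ * Real.sin θ) ≤ 2 * Real.pi * M ∧
  (3 * (∫ θ in (0:ℝ)..(2 * Real.pi), g θ * Real.sin θ) = 2 * Real.pi * M → ∀ θ, triSum g θ = M)

/-- The functional-differential equation forces `g` to be a trigonometric polynomial of degree 1.
The hypotheses say that the line through `(cos θ, g θ)` parallel to the chord between the points with
parameters `θ + 2π/3` and `θ + 4π/3` supports the graph. -/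
def S_ode : Prop := ∀ g : ℝ → ℝ, Continuous g → (∀ θ, g (θ + 2 * Real.pi) = g θ) →
  (∀ θ, 0 < Real.sin θ → ∀ φ, 0 ≤ Real.sin φ →
    g φ ≤ g θ + (g (θ + 4 * Real.pi / 3) - g (θ + 2 * Real.pi / 3)) / (Real.sqrt 3 * Real.sin θ)
      * (Real.cos φ - Real.cos θ)) →
  (∀ θ, Real.sin θ < 0 → ∀ φ, Real.sin φ ≤ 0 →
    g θ + (g (θ + 4 * Real.pi / 3) - g (θ + 2 * Real.pi / 3)) / (Real.sqrt 3 * Real.sin θ)
      * (Real.cos φ - Real.cos θ) ≤ g φ) →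
  ∃ a b c : ℝ, ∀ θ, g θ = a + b * Real.cos θ + c * Real.sin θ

/-- a parametrisation of this form gives an ellipse -/
def S_ellipse : Prop := ∀ (G : Set (ℝ × ℝ)) (g : ℝ → ℝ) (a b c : ℝ), NormFig G → Param G g →
  (∀ θ, g θ = a + b * Real.cos θ + c * Real.sin θ) → ∃ Y : Fin 3 → ℝ × ℝ, det3 Y ≠ 0 ∧ G = T Y '' Disc

/-- Blaschke's inequality -/
def S_blaschke : Prop := ∀ G : Set (ℝ × ℝ), Fig G → ∀ X : Fin 3 → ℝ × ℝ, MaxTri G X →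
  2 * kap * area G ≤ det3 X ∧
  (2 * kap * area G = det3 X → ∃ Y : Fin 3 → ℝ × ℝ, det3 Y ≠ 0 ∧ G = T Y '' Disc)

/-! ### Part 2: the figure `F` -/

/-- every figure has a maximum-area triangle -/
def S_maxtri : Prop := ∀ G : Set (ℝ × ℝ), Fig G → ∃ X : Fin 3 → ℝ × ℝ, MaxTri G X ∧ 0 < det3 X

/-- position of `F` with respect to its maximum-area triangle -/
def S_fgeom : Prop := ∀ F : Set (ℝ × ℝ), Fig F → MaxTri F S0 →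
  ∃ t : Fin 3 → ℝ, (∀ i, 0 ≤ t i) ∧ (∀ i, t i ≤ 1) ∧ F ⊆ H t ∧ ∀ i, ∃ p ∈ F, lam p i = -t i

/-- lower bound of the area -/
def S_harea : Prop := ∀ (K : Set (ℝ × ℝ)) (t : Fin 3 → ℝ), IsCompact K → Convex ℝ K →
  (∀ i, 0 ≤ t i) → (∀ i, S0 i ∈ K) → K ⊆ H t → (∀ i, ∃ p ∈ K, lam p i = -t i) →
  1 + ∑ i, t i ≤ 2 * area K

/-- an ellipse is not a polygon -/
def S_poly : Prop := ∀ (V : Set (ℝ × ℝ)) (Y : Fin 3 → ℝ × ℝ), V.Finite → det3 Y ≠ 0 →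
  T Y '' Disc ≠ convexHull ℝ V

/-- area of triangles inside the unit disc -/
def S_disc : Prop := (∀ X : Fin 3 → ℝ × ℝ, (∀ i, X i ∈ Disc) → |det3 X| ≤ 3 * Real.sqrt 3 / 2) ∧
  area Disc = Real.pi

/-! ### Part 3: the figure `G`, small `s` -/

/-- point with barycentric coordinates `-u` at `i` and `(1+u)/2` at the other two indices -/
noncomputable def Bpt (i : Fin 3) (u : ℝ) : ℝ × ℝ := ∑ j, (if j = i then -u else (1 + u) / 2) • S0 j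

/-- caps of `G` outside its maximum-area triangle -/
def S_caps : Prop := ∀ G : Set (ℝ × ℝ), Fig G → MaxTri G S0 →
  ∃ u : Fin 3 → ℝ, (∀ i, 0 ≤ u i) ∧ (∀ i, u i ≤ 1) ∧ (∀ i, Bpt i (u i) ∈ G) ∧
    2 * area G ≤ 1 + ∑ i, u i * (2 - u i)

/-- membership of points in the sector `c, A_i, A_j` -/
def S_star : Prop := ∀ G : Set (ℝ × ℝ), Convex ℝ G → ∀ Ai Aj Ak : ℝ × ℝ, Ai ∈ G → Aj ∈ G → Ak ∈ G →
  ∀ u ni nj nk : ℝ, 0 ≤ u → u < 1 → 0 ≤ ni → 0 ≤ nj → nk = 2 * u / (1 - u) →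
  ((1 + u) / 2) • Ai + ((1 + u) / 2) • Aj + (-u) • Ak ∈ G → 0 < ni + nj + nk →
  ∀ c : ℝ × ℝ, (ni + nj + nk) • c = ni • Ai + nj • Aj + nk • Ak →
  ∀ α β : ℝ, 0 ≤ α → 0 ≤ β → (1 + nj + nk) * α + (1 - ni) * β ≤ 1 + nj + nk →
    (1 + ni + nk) * β + (1 - nj) * α ≤ 1 + ni + nk →
    c + α • (Ai - c) + β • (Aj - c) ∈ G

/-- a truncated triangle is the convex hull of its six vertices -/
def S_hex : Prop := ∀ G : Set (ℝ × ℝ), Convex ℝ G → ∀ (X : Fin 3 → ℝ × ℝ) (r : Fin 3 → ℝ),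
  (∀ i, 0 ≤ r i) → (∀ i j, i ≠ j → r i + r j ≤ 1) →
  (∀ i j, i ≠ j → (1 - r i) • X i + r i • X j ∈ G) →
  ∀ μ : Fin 3 → ℝ, (∀ i, 0 ≤ μ i) → (∑ i, μ i = 1) → (∀ i, μ i ≤ 1 - r i) → ∑ i, μ i • X i ∈ G

/-- admissible star placement with value `V`; `w` is the (permuted) vector `t`, `s = ∑ w` -/
def GoodPl (n : Fin 3 → ℝ) (s : ℝ) (w : Fin 3 → ℝ) (V : ℝ) : Prop :=
  ∃ r φ : Fin 3 → ℝ, (∀ i, 0 ≤ r i ∧ r i ≤ (s - w i) / (1 + s)) ∧ (∀ i j, i ≠ j → r i + r j ≤ 1) ∧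
    (∀ i, 0 ≤ φ i) ∧
    (∀ i j, i ≠ j → (1 + ∑ k, n k - n i) * ((1 - r i) * φ i) + (1 - n i) * (r i * φ j)
      ≤ 1 + ∑ k, n k - n i) ∧
    (∀ i j, i ≠ j → (1 - n j) * φ i ≤ 1 + ∑ k, n k - n j) ∧
    V * ∑ k, n k ≤ n 0 * (φ 1 * φ 2) + n 1 * (φ 0 * φ 2) + n 2 * (φ 0 * φ 1)

/-- the core inequality -/
def S_core : Prop := ∀ (n t : Fin 3 → ℝ) (s K : ℝ), (∀ i, 0 ≤ n i) → (∀ i, 0 ≤ t i) → 0 < ∑ i, n i →
  s = ∑ i, t i → 0 < s → s ≤ 0.654 → K = kap * (4 - ∑ i, 4 / (2 + n i) ^ 2) → K ≤ 1 →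
  ∃ σ : Equiv.Perm (Fin 3), GoodPl n s (fun i => t (σ i)) (K * (1 + s) * (1 + s / 1000))

/-- result for small `s` -/
def S_small : Prop := ∀ (G : Set (ℝ × ℝ)) (t : Fin 3 → ℝ), Fig G → MaxTri G S0 → (∀ i, 0 ≤ t i) →
  0 < ∑ i, t i → ∑ i, t i ≤ 0.654 →
  ∃ X : Fin 3 → ℝ × ℝ, Set.MapsTo (T X) (H t) G ∧ 2 * kap * area G < (1 + ∑ i, t i) * |det3 X|

/-! ### Part 4: inscribed centrally symmetric hexagons, large `s` -/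

/-- strictly convex approximation from outside -/
def S_approx : Prop := ∀ (G : Set (ℝ × ℝ)) (ε : ℝ), Fig G → 0 < ε →
  ∃ G' : Set (ℝ × ℝ), StrictConvex ℝ G' ∧ IsCompact G' ∧ G ⊆ G' ∧ G' ⊆ Metric.cthickening ε G

noncomputable def dir (θ : ℝ) : ℝ × ℝ := (Real.cos θ, Real.sin θ)
noncomputable def nrm (θ : ℝ) (p : ℝ × ℝ) : ℝ := -Real.sin θ * p.1 + Real.cos θ * p.2

/-- `L θ` is the maximum length of a chord of `G` in direction `dir θ` -/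
structure MaxChord (G : Set (ℝ × ℝ)) (L : ℝ → ℝ) : Prop where
  cont : Continuous L
  pos : ∀ θ, 0 < L θ
  per : ∀ θ, L (θ + Real.pi) = L θ
  att : ∀ θ, ∃ X ∈ G, X + L θ • dir θ ∈ G
  le : ∀ (θ ℓ : ℝ) (X : ℝ × ℝ), X ∈ G → X + ℓ • dir θ ∈ G → ℓ ≤ L θ

def S_maxchord : Prop := ∀ G : Set (ℝ × ℝ), Fig G → ∃ L : ℝ → ℝ, MaxChord G L

/-- `P (θ, a)` is the starting point of the lowest (in direction `nrm θ`) chord of length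
`a * L θ` in direction `dir θ` -/
structure LowChord (G : Set (ℝ × ℝ)) (L : ℝ → ℝ) (P : ℝ × ℝ → ℝ × ℝ) : Prop where
  cont : ContinuousOn P (Set.univ ×ˢ Set.Icc (0:ℝ) 1)
  mem : ∀ θ, ∀ a ∈ Set.Icc (0:ℝ) 1, P (θ, a) ∈ G
  mem' : ∀ θ, ∀ a ∈ Set.Icc (0:ℝ) 1, P (θ, a) + (a * L θ) • dir θ ∈ G
  low : ∀ θ, ∀ a ∈ Set.Icc (0:ℝ) 1, ∀ X ∈ G, X + (a * L θ) • dir θ ∈ G →
    nrm θ (P (θ, a)) ≤ nrm θ X ∧ (nrm θ X = nrm θ (P (θ, a)) → X = P (θ, a))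
  per : ∀ θ, ∀ a ∈ Set.Icc (0:ℝ) 1, P (θ + 2 * Real.pi, a) = P (θ, a)

def S_lowchord : Prop := ∀ (G : Set (ℝ × ℝ)) (L : ℝ → ℝ), StrictConvex ℝ G → Fig G → MaxChord G L →
  ∃ P : ℝ × ℝ → ℝ × ℝ, LowChord G L P

/-- the right middle vertex; `P (θ + π, a)` is the right end of the top chord -/
noncomputable def pR (L : ℝ → ℝ) (P : ℝ × ℝ → ℝ × ℝ) (ρ τ θ a : ℝ) : ℝ × ℝ :=
  (1 - ρ) • (P (θ, a) + (a * L θ) • dir θ) + ρ • P (θ + Real.pi, a) + (τ * (a * L θ)) • dir θ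

/-- monotone crossing of the boundary -/
def S_cross : Prop := ∀ (G : Set (ℝ × ℝ)) (L : ℝ → ℝ) (P : ℝ × ℝ → ℝ × ℝ) (ρ τ : ℝ),
  StrictConvex ℝ G → Fig G → MaxChord G L → LowChord G L P → 0 < ρ → ρ < 1 → 0 < τ →
  (∀ θ, pR L P ρ τ θ 0 ∈ interior G) ∧ (∀ θ, pR L P ρ τ θ 1 ∉ G) ∧
  (∀ θ a b, 0 ≤ a → a < b → b ≤ 1 → pR L P ρ τ θ b ∈ G → pR L P ρ τ θ a ∈ interior G)

/-- low chords have both end points on the boundary -/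
def S_bdry : Prop := ∀ (G : Set (ℝ × ℝ)) (L : ℝ → ℝ) (P : ℝ × ℝ → ℝ × ℝ),
  StrictConvex ℝ G → Fig G → MaxChord G L → LowChord G L P → ∀ θ a, 0 < a → a < 1 →
  P (θ, a) ∈ frontier G ∧ P (θ, a) + (a * L θ) • dir θ ∈ frontier G

/-- the intermediate value argument -/
def S_ivt : Prop := ∀ (G : Set (ℝ × ℝ)) (L : ℝ → ℝ) (P : ℝ × ℝ → ℝ × ℝ) (ρ τ : ℝ),
  Fig G → MaxChord G L → LowChord G L P →
  (∀ θ, pR L P ρ τ θ 0 ∈ interior G) → (∀ θ, pR L P ρ τ θ 1 ∉ G) →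
  (∀ θ a b, 0 ≤ a → a < b → b ≤ 1 → pR L P ρ τ θ b ∈ G → pR L P ρ τ θ a ∈ interior G) →
  ∃ θ a, 0 < a ∧ a < 1 ∧ pR L P ρ τ θ a ∈ frontier G ∧ pR L P ρ τ (θ + Real.pi) a ∈ frontier G

/-- inscribed affine images of a centrally symmetric hexagon -/
def S_inscribed : Prop := ∀ (G : Set (ℝ × ℝ)) (r : Fin 3 → ℝ), StrictConvex ℝ G → Fig G →
  (∀ i, 0 < r i) → ∑ i, r i = 1 →
  ∃ X : Fin 3 → ℝ × ℝ, det3 X ≠ 0 ∧ ∀ i j, i ≠ j → (1 - r i) • X i + r i • X j ∈ frontier G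

/-- area bound for a figure with an inscribed centrally symmetric hexagon -/
def S_ears : Prop := ∀ (G : Set (ℝ × ℝ)) (r : Fin 3 → ℝ) (X : Fin 3 → ℝ × ℝ) (c : ℝ), Fig G →
  (∀ i, 0 < r i) → ∑ i, r i = 1 → det3 X ≠ 0 →
  (∀ i j, i ≠ j → (1 - r i) • X i + r i • X j ∈ frontier G) →
  1 ≤ c → (∀ i, 1 + 2 * r i ^ 2 - ∑ j, r j ^ 2 ≤ c) → 2 * area G ≤ |det3 X| * c

/-- the general existence theorem (limit of the two previous ones) -/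
def S_exist : Prop := ∀ (G : Set (ℝ × ℝ)) (r : Fin 3 → ℝ) (c : ℝ), Fig G →
  (∀ i, 0 ≤ r i) → (∀ i, r i ≤ 1 / 2) → ∑ i, r i = 1 →
  1 ≤ c → (∀ i, 1 + 2 * r i ^ 2 - ∑ j, r j ^ 2 ≤ c) →
  ∃ X : Fin 3 → ℝ × ℝ, (∀ i j, i ≠ j → (1 - r i) • X i + r i • X j ∈ G) ∧ 2 * area G ≤ |det3 X| * c

/-- choice of the hexagon for large `s` -/
def S_choice : Prop := ∀ (t : Fin 3 → ℝ) (s : ℝ), (∀ i, 0 ≤ t i) → (∀ i, t i ≤ 1) → s = ∑ i, t i →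
  0.654 ≤ s → (1 + s) * kap < 1 →
  ∃ (r : Fin 3 → ℝ) (c : ℝ), (∀ i, 0 ≤ r i) ∧ (∀ i, r i ≤ 1 / 2) ∧ ∑ i, r i = 1 ∧ 1 ≤ c ∧
    (∀ i, 1 + 2 * r i ^ 2 - ∑ j, r j ^ 2 ≤ c) ∧
    (((∀ i, r i ≤ (1 - t i) / 2) ∧ 4 * kap * c < 1 + s) ∨
     ((∀ i, r i ≤ (s - t i) / (1 + s)) ∧ kap * c * (1 + s) < 1))

/-- result for large `s` -/
def S_large : Prop := ∀ (G : Set (ℝ × ℝ)) (t : Fin 3 → ℝ), Fig G → (∀ i, 0 ≤ t i) → (∀ i, t i ≤ 1) →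
  0.654 ≤ ∑ i, t i → (1 + ∑ i, t i) * kap < 1 →
  ∃ X : Fin 3 → ℝ × ℝ, Set.MapsTo (T X) (H t) G ∧ 2 * kap * area G < (1 + ∑ i, t i) * |det3 X|

/-! ### Part 5: main theorem in `ℝ × ℝ` -/

def S_main : Prop := ∀ F G : Set (ℝ × ℝ), Fig F → Fig G →
  (∃ X : Fin 3 → ℝ × ℝ, det3 X ≠ 0 ∧ T X '' F ⊆ G ∧ kap * area G ≤ area (T X '' F)) ∧
  ((∀ X : Fin 3 → ℝ × ℝ, T X '' F ⊆ G → area (T X '' F) ≤ kap * area G) →
    (∃ Y : Fin 3 → ℝ × ℝ, det3 Y ≠ 0 ∧ F = T Y '' Tri) ∧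
    (∃ Z : Fin 3 → ℝ × ℝ, det3 Z ≠ 0 ∧ G = T Z '' Disc))

/-- triangles in ellipses -/
def S_conv : Prop := ∀ X Y Z : Fin 3 → ℝ × ℝ, det3 Z ≠ 0 →
  T X '' (T Y '' Tri) ⊆ T Z '' Disc → area (T X '' (T Y '' Tri)) ≤ kap * area (T Z '' Disc)

/-- the maximum is attained -/
def S_attain : Prop := ∀ F G : Set (ℝ × ℝ), Fig F → Fig G →
  ∃ X : Fin 3 → ℝ × ℝ, det3 X ≠ 0 ∧ T X '' F ⊆ G ∧
    ∀ Y : Fin 3 → ℝ × ℝ, T Y '' F ⊆ G → area (T Y '' F) ≤ area (T X '' F)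

end AffInc
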