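import Pool.Agent.Helper72.AI.Final
import Pool.Agent.Helper72.AI.CU
import Pool.Agent.Helper31.AI.S_norm
import Pool.Agent.Helper27.AI.S_param
import Pool.Agent.Helper3.AI.S_integrate
import Pool.Agent.Helper3.AI.S_attain
import Pool.Agent.Helper90.AI.S_ode
import Pool.Agent.Helper90.AI.S_star
import Pool.Agent.Helper89.AI.S_ellipse
import Pool.Agent.Helper89.AI.E_supp
import Pool.Agent.Helper77.AI.S_blaschke
import Pool.Agent.Helper77.AI.S_large
import Pool.Agent.Helper22.AI.S_maxtri
import Pool.Agent.Helper22.AI.S_poly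
import Pool.Agent.Helper22.AI.E_lp
import Pool.Agent.Helper75.AI.S_fgeom
import Pool.Agent.Helper75.AI.S_disc
import Pool.Agent.Helper17.AI.S_harea
import Pool.Agent.Helper29.AI.S_caps
import Pool.Agent.Helper29.AI.E_ear
import Pool.Agent.Helper47.AI.S_hex
import Pool.Agent.Helper47.AI.S_inscribed
import Pool.Agent.Helper68.AI.S_small
import Pool.Agent.Helper68.AI.S_main
import Pool.Agent.Helper28.AI.S_approx
import Pool.Agent.Helper33.AI.S_maxchord
import Pool.Agent.Helper33.AI.C_mode3
import Pool.Agent.Helper83.AI.S_lowchord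
import Pool.Agent.Helper83.AI.S_exist
import Pool.Agent.Helper98.AI.S_cross
import Pool.Agent.Helper67.AI.S_bdry
import Pool.Agent.Helper93.AI.S_ivt
import Pool.Agent.Helper50.AI.S_ears
import Pool.Agent.Helper65.AI.S_choice
import Pool.Agent.Helper32.AI.S_conv
import Pool.Agent.Helper52.AI.C_elem
import Pool.Agent.Helper52.AI.C_basic
import Pool.Agent.Helper52.AI.C_conc
import Pool.Agent.Helper52.AI.S_core

set_option autoImplicit false

namespace AffInc

open Pool.Agent

theorem all_core (hm3 : C_mode3) : S_core :=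
  Helper52AI.pf_S_core Helper52AI.pf_C_elem Helper52AI.pf_C_scale
    (Helper52AI.pf_C_basic Helper52AI.pf_C_elem) hm3 Helper52AI.pf_C_L Helper52AI.pf_C_Q
    (Cert.pf_C_UA0 Helper52AI.pf_C_elem) (Cert.pf_C_UA Helper52AI.pf_C_elem)
    (Cert.pf_C_UB Helper52AI.pf_C_elem) Helper52AI.pf_C_I2 Helper52AI.pf_C_conc
    Helper52AI.pf_C_kap

theorem all_blaschke : S_blaschke :=
  Helper77.AI.pf_S_blaschke Helper31.AI.pf_S_norm Helper27.AI.pf_S_param
    Helper3.AI.pf_S_integrate Helper90.AI.pf_S_ode Helper89.AI.pf_S_ellipse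

theorem all_small (hm3 : C_mode3) : S_small :=
  Helper68.AI.pf_S_small Helper29.AI.pf_S_caps Helper90.AI.pf_S_star Helper47.AI.pf_S_hex
    (all_core hm3) all_blaschke

theorem all_ears : S_ears :=
  SEars50.pf_S_ears Helper89.AI.pf_E_supp Helper29.AI.pf_E_ear Helper22.AI.pf_E_lp

theorem all_inscribed (hmc : S_maxchord) : S_inscribed :=
  Helper47.AI.pf_S_inscribed hmc Helper83.AI.Low.pf_S_lowchord Helper98.AI.pf_S_cross
    Helper67.AI.pf_S_bdry Helper93.AI.pf_S_ivt

theorem all_large (hmc : S_maxchord) : S_large :=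
  Helper77.AI.pf_S_large
    (Helper83.AI.Exist.pf_S_exist Helper28.AI.pf_S_approx (all_inscribed hmc) all_ears)
    Helper47.AI.pf_S_hex Helper65.AI.pf_S_choice

theorem all_main (hm3 : C_mode3) (hmc : S_maxchord) : S_main :=
  Helper68.AI.pf_S_main all_blaschke Helper22.AI.pf_S_maxtri Helper75.AI.pf_S_fgeom
    Helper17.AI.pf_S_harea Helper22.AI.pf_S_poly (all_small hm3) (all_large hmc)

theorem main_all : S_main :=
  all_main (Helper33AI.pf_C_mode3 Helper52AI.pf_C_elem) Helper33AI.pf_S_maxchord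

theorem conv_all : S_conv := Helper32.AI.pf_S_conv Helper75.AI.pf_S_disc

theorem attain_all : S_attain := Helper3.AI.pf_S_attain

end AffInc
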