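import Pool.Agent.Helper72.AI.Defs

set_option autoImplicit false

namespace AffInc

open MeasureTheory

lemma T_def (X : Fin 3 → ℝ × ℝ) (p : ℝ × ℝ) :
    T X p = ((1 - p.1 - p.2) * (X 0).1 + p.1 * (X 1).1 + p.2 * (X 2).1,
      (1 - p.1 - p.2) * (X 0).2 + p.1 * (X 1).2 + p.2 * (X 2).2) := by
  simp [T, lam, Fin.sum_univ_three]
  ext <;> simp

lemma T_fst (X : Fin 3 → ℝ × ℝ) (p : ℝ × ℝ) :
    (T X p).1 = (1 - p.1 - p.2) * (X 0).1 + p.1 * (X 1).1 + p.2 * (X 2).1 := by
  rw [T_def]

lemma T_snd (X : Fin 3 → ℝ × ℝ) (p : ℝ × ℝ) :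
    (T X p).2 = (1 - p.1 - p.2) * (X 0).2 + p.1 * (X 1).2 + p.2 * (X 2).2 := by
  rw [T_def]

lemma T_S0 (p : ℝ × ℝ) : T S0 p = p := by
  rw [T_def]; simp [S0]

lemma T_comp (X Y : Fin 3 → ℝ × ℝ) (p : ℝ × ℝ) : T X (T Y p) = T (fun i => T X (Y i)) p := by
  ext
  · simp only [T_fst, T_snd]; ring
  · simp only [T_fst, T_snd]; ring

lemma det3_T (X Y : Fin 3 → ℝ × ℝ) : det3 (fun i => T X (Y i)) = det3 X * det3 Y := by
  simp only [det3, T_fst, T_snd]; ring

lemma det3_S0 : det3 S0 = 1 := by simp [det3, S0]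

lemma T_continuous (X : Fin 3 → ℝ × ℝ) : Continuous (T X) := by
  have : T X = fun p => ((1 - p.1 - p.2) * (X 0).1 + p.1 * (X 1).1 + p.2 * (X 2).1,
      (1 - p.1 - p.2) * (X 0).2 + p.1 * (X 1).2 + p.2 * (X 2).2) := funext (T_def X)
  rw [this]; fun_prop

/-- the linear part of `T X` -/
noncomputable def Tlin (X : Fin 3 → ℝ × ℝ) : (ℝ × ℝ) →ₗ[ℝ] (ℝ × ℝ) where
  toFun p := (p.1 * ((X 1).1 - (X 0).1) + p.2 * ((X 2).1 - (X 0).1),
    p.1 * ((X 1).2 - (X 0).2) + p.2 * ((X 2).2 - (X 0).2))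
  map_add' p q := by ext <;> simp <;> ring
  map_smul' c p := by ext <;> simp <;> ring

lemma T_eq_lin (X : Fin 3 → ℝ × ℝ) (p : ℝ × ℝ) : T X p = Tlin X p + X 0 := by
  ext
  · simp [T_fst, Tlin]; ring
  · simp [T_snd, Tlin]; ring

lemma Tlin_det (X : Fin 3 → ℝ × ℝ) : LinearMap.det (Tlin X) = det3 X := by
  rw [← LinearMap.det_toMatrix (Module.Basis.finTwoProd ℝ)]
  rw [Matrix.det_fin_two]
  simp [LinearMap.toMatrix_apply, Tlin, det3]
  ring

lemma volume_T (X : Fin 3 → ℝ × ℝ) (S : Set (ℝ × ℝ)) :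
    volume (T X '' S) = ENNReal.ofReal |det3 X| * volume S := by
  have h1 : T X '' S = (fun p => p + X 0) '' (Tlin X '' S) := by
    rw [Set.image_image]; congr 1; 
    ext p : 1; exact T_eq_lin X p
  rw [h1]
  rw [Set.image_add_right, measure_preimage_add_right]
  rw [Measure.addHaar_image_linearMap, Tlin_det]

lemma area_T (X : Fin 3 → ℝ × ℝ) (S : Set (ℝ × ℝ)) : area (T X '' S) = |det3 X| * area S := by
  unfold area
  rw [volume_T, ENNReal.toReal_mul, ENNReal.toReal_ofReal (abs_nonneg _)]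

/-- explicit inverse triple -/
noncomputable def invT (X : Fin 3 → ℝ × ℝ) : Fin 3 → ℝ × ℝ :=
  fun i => (((S0 i).1 - (X 0).1) * ((X 2).2 - (X 0).2) / det3 X
      - ((S0 i).2 - (X 0).2) * ((X 2).1 - (X 0).1) / det3 X,
    ((X 1).1 - (X 0).1) * ((S0 i).2 - (X 0).2) / det3 X
      - ((X 1).2 - (X 0).2) * ((S0 i).1 - (X 0).1) / det3 X)

lemma T_invT (X : Fin 3 → ℝ × ℝ) (h : det3 X ≠ 0) (p : ℝ × ℝ) : T X (T (invT X) p) = p := by
  ext
  · simp only [T_fst, T_snd, invT, S0]
    simp only [Matrix.cons_val_zero, Matrix.cons_val_one, Matrix.cons_val]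
    field_simp
    unfold det3
    ring
  · simp only [T_fst, T_snd, invT, S0]
    simp only [Matrix.cons_val_zero, Matrix.cons_val_one, Matrix.cons_val]
    field_simp
    unfold det3
    ring

lemma invT_T (X : Fin 3 → ℝ × ℝ) (h : det3 X ≠ 0) (p : ℝ × ℝ) : T (invT X) (T X p) = p := by
  ext
  · simp only [T_fst, T_snd, invT, S0]
    simp only [Matrix.cons_val_zero, Matrix.cons_val_one, Matrix.cons_val]
    field_simp
    unfold det3
    ring
  · simp only [T_fst, T_snd, invT, S0]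
    simp only [Matrix.cons_val_zero, Matrix.cons_val_one, Matrix.cons_val]
    field_simp
    unfold det3
    ring

lemma T_injective (X : Fin 3 → ℝ × ℝ) (h : det3 X ≠ 0) : Function.Injective (T X) :=
  Function.LeftInverse.injective (invT_T X h)

lemma T_bijective (X : Fin 3 → ℝ × ℝ) (h : det3 X ≠ 0) : Function.Bijective (T X) :=
  ⟨T_injective X h, Function.RightInverse.surjective (T_invT X h)⟩

lemma det3_invT (X : Fin 3 → ℝ × ℝ) (h : det3 X ≠ 0) : det3 X * det3 (invT X) = 1 := by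
  rw [← det3_T]
  have : (fun i => T X (invT X i)) = S0 := by
    funext i
    have h1 := T_invT X h (S0 i)
    have h2 : T (invT X) (S0 i) = invT X i := by
      fin_cases i <;> (rw [T_def]; simp [S0])
    rw [← h2]; exact h1
  rw [this, det3_S0]

lemma T_comb (X : Fin 3 → ℝ × ℝ) (p q : ℝ × ℝ) (a b : ℝ) (hab : a + b = 1) :
    T X (a • p + b • q) = a • T X p + b • T X q := by
  obtain rfl : b = 1 - a := by linarith
  ext
  · simp [T_fst]; ring
  · simp [T_snd]; ring

/-- homeomorphism given by `T X` -/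
noncomputable def Thomeo (X : Fin 3 → ℝ × ℝ) (h : det3 X ≠ 0) : (ℝ × ℝ) ≃ₜ (ℝ × ℝ) where
  toFun := T X
  invFun := T (invT X)
  left_inv := invT_T X h
  right_inv := T_invT X h
  continuous_toFun := T_continuous X
  continuous_invFun := T_continuous _

lemma Fig.image {G : Set (ℝ × ℝ)} (hG : Fig G) (X : Fin 3 → ℝ × ℝ) (h : det3 X ≠ 0) :
    Fig (T X '' G) where
  cpt := hG.cpt.image (T_continuous X)
  cvx := by
    rintro _ ⟨p, hp, rfl⟩ _ ⟨q, hq, rfl⟩ a b ha hb hab
    exact ⟨a • p + b • q, hG.cvx hp hq ha hb hab, T_comb X p q a b hab⟩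
  int := by
    have : interior (T X '' G) = T X '' interior G := ((Thomeo X h).image_interior G).symm
    rw [this]; exact hG.int.image _

lemma Fig.measurable {G : Set (ℝ × ℝ)} (hG : Fig G) : MeasurableSet G := hG.cpt.measurableSet

lemma Fig.volume_lt_top {G : Set (ℝ × ℝ)} (hG : Fig G) : volume G < ⊤ := hG.cpt.measure_lt_top

lemma Fig.area_pos {G : Set (ℝ × ℝ)} (hG : Fig G) : 0 < area G := by
  unfold area
  refine ENNReal.toReal_pos ?_ hG.volume_lt_top.ne
  exact (hG.int.mono interior_subset |> fun _ => Measure.measure_pos_of_nonempty_interior volume hG.int).ne'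

lemma area_mono {S S' : Set (ℝ × ℝ)} (h : S ⊆ S') (h' : volume S' < ⊤) : area S ≤ area S' :=
  ENNReal.toReal_mono h'.ne (measure_mono h)

lemma lam_sum (p : ℝ × ℝ) : ∑ i, lam p i = 1 := by
  simp [lam, Fin.sum_univ_three]
  ring

lemma Tri_eq : Tri = {p : ℝ × ℝ | 0 ≤ p.1 ∧ 0 ≤ p.2 ∧ p.1 + p.2 ≤ 1} := by
  ext p
  simp only [Tri, Set.mem_ofPred_eq, lam]
  constructor
  · intro h
    have h0 := h 0
    have h1 := h 1
    have h2 := h 2
    simp at h0 h1 h2
    exact ⟨h1, h2, by linarith⟩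
  · rintro ⟨h1, h2, h3⟩ i
    fin_cases i
    · simp; linarith
    · simpa using h1
    · simpa using h2

lemma Tri_eq_hull : Tri = convexHull ℝ (Set.range S0) := by
  apply Set.Subset.antisymm
  · intro p hp
    have hp' := hp
    rw [Tri_eq] at hp'
    obtain ⟨h1, h2, h3⟩ := hp'
    have : p = ∑ i, lam p i • S0 i := (T_S0 p).symm
    rw [this]
    apply Convex.sum_mem (convex_convexHull ℝ _) (fun i _ => hp i) (lam_sum p)
    intro i _
    exact subset_convexHull ℝ _ (Set.mem_range_self i)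
  · apply convexHull_min
    · rintro _ ⟨i, rfl⟩
      rw [Tri_eq]
      fin_cases i <;> simp [S0]
    · rw [Tri_eq]
      intro p hp q hq a b ha hb hab
      obtain ⟨p1, p2, p3⟩ := hp
      obtain ⟨q1, q2, q3⟩ := hq
      refine ⟨?_, ?_, ?_⟩
      · simp; positivity
      · simp; positivity
      · simp
        have : a * (p.1 + p.2) + b * (q.1 + q.2) ≤ a * 1 + b * 1 := by gcongr
        linarith

lemma area_Tri : area Tri = 1 / 2 := by
  have hm : MeasurableSet Tri := by
    rw [Tri_eq]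
    apply MeasurableSet.inter (measurableSet_le measurable_const measurable_fst)
    apply MeasurableSet.inter (measurableSet_le measurable_const measurable_snd)
    exact measurableSet_le (measurable_fst.add measurable_snd) measurable_const
  unfold area
  rw [Measure.volume_eq_prod, Measure.prod_apply hm]
  have h1 : ∀ x : ℝ, volume (Prod.mk x ⁻¹' Tri) =
      (Set.Icc (0:ℝ) 1).indicator (fun x => ENNReal.ofReal (1 - x)) x := by
    intro x
    by_cases hx : x ∈ Set.Icc (0:ℝ) 1
    · rw [Set.indicator_of_mem hx]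
      have : Prod.mk x ⁻¹' Tri = Set.Icc (0:ℝ) (1 - x) := by
        rw [Tri_eq]; ext y
        simp only [Set.mem_preimage, Set.mem_ofPred_eq, Set.mem_Icc]
        constructor
        · rintro ⟨_, h2, h3⟩; exact ⟨h2, by linarith⟩
        · rintro ⟨h2, h3⟩; exact ⟨hx.1, h2, by linarith⟩
      rw [this, Real.volume_Icc]; simp
    · rw [Set.indicator_of_notMem hx]
      have : Prod.mk x ⁻¹' Tri = ∅ := by
        rw [Tri_eq]; ext y
        simp only [Set.mem_preimage, Set.mem_ofPred_eq, Set.mem_empty_iff_false, iff_false]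
        rintro ⟨h1, h2, h3⟩
        exact hx ⟨h1, by linarith⟩
      rw [this]; simp
  simp_rw [h1]
  rw [lintegral_indicator measurableSet_Icc]
  rw [← ofReal_integral_eq_lintegral_ofReal]
  · rw [ENNReal.toReal_ofReal]
    · rw [integral_Icc_eq_integral_Ioc, ← intervalIntegral.integral_of_le zero_le_one]
      rw [intervalIntegral.integral_sub (by simp) (by simp)]
      simp [integral_id]
      norm_num
    · apply setIntegral_nonneg measurableSet_Icc
      intro x hx; linarith [hx.2]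
  · exact (continuous_const.sub continuous_id).integrableOn_Icc
  · refine (ae_restrict_iff' measurableSet_Icc).2 (Filter.Eventually.of_forall ?_)
    intro x hx; simpa using hx.2

end AffInc
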