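import Mathlib

set_option autoImplicit false

/-! Definitions for MP_870acd_co (minimal affine inclusion ratio).
All internal work happens in `ℝ × ℝ`. -/

namespace AffInc

open MeasureTheory

/-- Twice the signed area of the triangle `X 0, X 1, X 2`. -/
def det3 (X : Fin 3 → ℝ × ℝ) : ℝ :=
  ((X 1).1 - (X 0).1) * ((X 2).2 - (X 0).2) - ((X 1).2 - (X 0).2) * ((X 2).1 - (X 0).1)

/-- Area of a planar set. -/
noncomputable def area (S : Set (ℝ × ℝ)) : ℝ := (volume S).toReal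

/-- The constant `3√3/(4π)`. -/
noncomputable def kap : ℝ := 3 * Real.sqrt 3 / (4 * Real.pi)

/-- Convex figure: compact, convex, nonempty interior. -/
structure Fig (G : Set (ℝ × ℝ)) : Prop where
  cpt : IsCompact G
  cvx : Convex ℝ G
  int : (interior G).Nonempty

/-- `X` is a maximum-area (positively oriented) triangle of `G`. -/
def MaxTri (G : Set (ℝ × ℝ)) (X : Fin 3 → ℝ × ℝ) : Prop :=
  (∀ i, X i ∈ G) ∧ ∀ Y : Fin 3 → ℝ × ℝ, (∀ i, Y i ∈ G) → det3 Y ≤ det3 X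

/-- Vertices of the standard triangle. -/
def S0 : Fin 3 → ℝ × ℝ := ![(0, 0), (1, 0), (0, 1)]

/-- Barycentric coordinates with respect to the standard triangle. -/
def lam (p : ℝ × ℝ) : Fin 3 → ℝ := ![1 - p.1 - p.2, p.1, p.2]

/-- The affine map which sends `S0 i` to `X i`. -/
def T (X : Fin 3 → ℝ × ℝ) (p : ℝ × ℝ) : ℝ × ℝ := ∑ i, lam p i • X i

/-- The hexagon `-t i ≤ lam i ≤ 1`. -/
def H (t : Fin 3 → ℝ) : Set (ℝ × ℝ) := {p | ∀ i, -t i ≤ lam p i ∧ lam p i ≤ 1}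

/-- The standard triangle as a set. -/
def Tri : Set (ℝ × ℝ) := {p | ∀ i, 0 ≤ lam p i}

/-- The closed unit disc. -/
def Disc : Set (ℝ × ℝ) := {p | p.1 ^ 2 + p.2 ^ 2 ≤ 1}

end AffInc
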