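import Pool.Agent.Helper72.AI.Plane

set_option autoImplicit false

namespace AffInc

open MeasureTheory

lemma ratios_greatest (hatt : S_attain) {F G : Set Plane} (hF : ConvexFigure F)
    (hG : ConvexFigure G) : IsGreatest (ratios F G) (f F G) := by
  obtain ⟨X, hX, hsub, hmax⟩ := hatt (toP '' F) (toP '' G) ((fig_iff F).2 hF) ((fig_iff G).2 hG)
  have hGpos : 0 < area (toP '' G) := ((fig_iff G).2 hG).area_pos
  have hgr : IsGreatest (ratios F G) (area (T X '' (toP '' F)) / area (toP '' G)) := by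
    constructor
    · rw [mem_ratios]; exact ⟨X, hX, hsub, rfl⟩
    · intro q hq
      rw [mem_ratios] at hq
      obtain ⟨Y, hY, hY2, rfl⟩ := hq
      exact div_le_div_of_nonneg_right (hmax Y hY2) hGpos.le
  have : f F G = area (T X '' (toP '' F)) / area (toP '' G) := hgr.csSup_eq
  rw [this]; exact hgr

lemma kap_le_f (hatt : S_attain) (hmain : S_main) {F G : Set Plane} (hF : ConvexFigure F)
    (hG : ConvexFigure G) : kap ≤ f F G := by
  have hg := ratios_greatest hatt hF hG
  obtain ⟨⟨X, hX, hsub, hle⟩, -⟩ := hmain (toP '' F) (toP '' G) ((fig_iff F).2 hF) ((fig_iff G).2 hG)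
  have hGpos : 0 < area (toP '' G) := ((fig_iff G).2 hG).area_pos
  refine le_trans ?_ (hg.2 ((mem_ratios F G _).2 ⟨X, hX, hsub, rfl⟩))
  rw [le_div_iff₀ hGpos]; exact hle

lemma kap_nonneg : 0 ≤ kap := by unfold kap; positivity

lemma f_eq_imp (hatt : S_attain) (hmain : S_main) {F G : Set Plane} (hF : ConvexFigure F)
    (hG : ConvexFigure G) (h : f F G = kap) : IsTriangle F ∧ IsEllipse G := by
  have hg := ratios_greatest hatt hF hG
  have hGpos : 0 < area (toP '' G) := ((fig_iff G).2 hG).area_pos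
  obtain ⟨-, h2⟩ := hmain (toP '' F) (toP '' G) ((fig_iff F).2 hF) ((fig_iff G).2 hG)
  have := h2 (by
    intro X hX
    by_cases h0 : det3 X = 0
    · rw [area_T, h0]; simp
      exact mul_nonneg kap_nonneg hGpos.le
    · have := hg.2 ((mem_ratios F G _).2 ⟨X, h0, hX, rfl⟩)
      rw [h, div_le_iff₀ hGpos] at this
      exact this)
  exact ⟨(triangle_iff F).2 this.1, (ellipse_iff G).2 this.2⟩

lemma f_le_of (hatt : S_attain) (hconv : S_conv) {F G : Set Plane} (hF : ConvexFigure F)
    (hG : ConvexFigure G) (hT : IsTriangle F) (hE : IsEllipse G) : f F G ≤ kap := by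
  have hg := ratios_greatest hatt hF hG
  have hGpos : 0 < area (toP '' G) := ((fig_iff G).2 hG).area_pos
  obtain ⟨X, hX, hsub, hq⟩ := (mem_ratios F G _).1 hg.1
  obtain ⟨Y, hY, hFY⟩ := (triangle_iff F).1 hT
  obtain ⟨Z, hZ, hGZ⟩ := (ellipse_iff G).1 hE
  rw [hq, div_le_iff₀ hGpos, hFY, hGZ]
  apply hconv X Y Z hZ
  rw [← hFY, ← hGZ]; exact hsub

lemma ball_fig : ConvexFigure (Metric.closedBall (0 : Plane) 1) := by
  refine ⟨isCompact_closedBall _ _, convex_closedBall _ _, ?_⟩
  exact ⟨0, Metric.ball_subset_interior_closedBall (Metric.mem_ball_self one_pos)⟩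

lemma ball_ellipse : IsEllipse (Metric.closedBall (0 : Plane) 1) :=
  ⟨AffineEquiv.refl ℝ Plane, by simp⟩

lemma Disc_fig : Fig Disc := by rw [← ball_eq]; exact (fig_iff _).2 ball_fig

/-- the standard triangle in the plane -/
noncomputable def stdTri : Set Plane := toP.symm '' Tri

lemma toP_stdTri : toP '' stdTri = Tri := by
  unfold stdTri; rw [Set.image_image]; simp

lemma stdTri_triangle : IsTriangle stdTri := by
  rw [triangle_iff, toP_stdTri]
  refine ⟨S0, by rw [det3_S0]; exact one_ne_zero, ?_⟩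
  have : (T S0 : ℝ × ℝ → ℝ × ℝ) = id := funext T_S0
  rw [this]; simp

lemma stdTri_fig : ConvexFigure stdTri := by
  rw [← fig_iff, toP_stdTri]
  refine ⟨?_, ?_, ?_⟩
  · rw [Tri_eq_hull]; exact (Set.finite_range S0).isCompact_convexHull ℝ
  · rw [Tri_eq_hull]; exact convex_convexHull ℝ _
  · refine ⟨(1/4, 1/4), ?_⟩
    rw [mem_interior]
    refine ⟨{p : ℝ × ℝ | 0 < p.1 ∧ 0 < p.2 ∧ p.1 + p.2 < 1}, ?_, ?_, ?_⟩
    · rintro p ⟨h1, h2, h3⟩
      rw [Tri_eq]; exact ⟨h1.le, h2.le, h3.le⟩
    · apply IsOpen.inter (isOpen_lt continuous_const continuous_fst)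
      apply IsOpen.inter (isOpen_lt continuous_const continuous_snd)
      exact isOpen_lt (continuous_fst.add continuous_snd) continuous_const
    · norm_num

theorem final (hatt : S_attain) (hmain : S_main) (hconv : S_conv) :
    mStar = 3 * Real.sqrt 3 / (4 * Real.pi) ∧
    (∀ F G : Set Plane, ConvexFigure F → ConvexFigure G →
      IsGreatest (ratios F G) (f F G) ∧
      (f F G = mStar ↔ IsTriangle F ∧ IsEllipse G)) ∧
    (∃ F G : Set Plane, ConvexFigure F ∧ ConvexFigure G ∧ IsTriangle F ∧ IsEllipse G ∧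
      f F G = mStar) := by
  have h0 : f stdTri (Metric.closedBall (0 : Plane) 1) = kap :=
    le_antisymm (f_le_of hatt hconv stdTri_fig ball_fig stdTri_triangle ball_ellipse)
      (kap_le_f hatt hmain stdTri_fig ball_fig)
  have hm : mStar = kap := by
    have : IsLeast {m | ∃ F G : Set Plane, ConvexFigure F ∧ ConvexFigure G ∧ m = f F G} kap := by
      constructor
      · exact ⟨stdTri, Metric.closedBall (0 : Plane) 1, stdTri_fig, ball_fig, h0.symm⟩
      · rintro m ⟨F, G, hF, hG, rfl⟩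
        exact kap_le_f hatt hmain hF hG
    exact this.csInf_eq
  refine ⟨hm, ?_, ?_⟩
  · intro F G hF hG
    refine ⟨ratios_greatest hatt hF hG, ?_⟩
    rw [hm]
    constructor
    · exact f_eq_imp hatt hmain hF hG
    · rintro ⟨h1, h2⟩
      exact le_antisymm (f_le_of hatt hconv hF hG h1 h2) (kap_le_f hatt hmain hF hG)
  · exact ⟨stdTri, Metric.closedBall (0 : Plane) 1, stdTri_fig, ball_fig, stdTri_triangle,
      ball_ellipse, by rw [h0, hm]⟩

end AffInc
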