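import Pool.Agent.Helper72.AI.Cert.UA0
import Pool.Agent.Helper72.AI.Cert.UA1
import Pool.Agent.Helper72.AI.Cert.UA2
import Pool.Agent.Helper72.AI.Cert.UA3
import Pool.Agent.Helper72.AI.Cert.UA4
import Pool.Agent.Helper72.AI.Cert.UA5
import Pool.Agent.Helper72.AI.Cert.UA6
import Pool.Agent.Helper72.AI.Cert.UZ0
import Pool.Agent.Helper72.AI.Cert.UB0
import Pool.Agent.Helper72.AI.Cert.UB1
import Pool.Agent.Helper72.AI.Cert.UB2
import Pool.Agent.Helper72.AI.Cert.UB3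
import Pool.Agent.Helper72.AI.Cert.UB4
import Pool.Agent.Helper72.AI.Cert.UB5
import Pool.Agent.Helper72.AI.Cert.UB6
import Pool.Agent.Helper72.AI.Cert.UB7
import Pool.Agent.Helper72.AI.Cert.UB8
import Pool.Agent.Helper72.AI.Cert.UB9
import Pool.Agent.Helper72.AI.Cert.UB10
import Pool.Agent.Helper72.AI.Cert.UB11

set_option autoImplicit false

namespace AffInc.Cert

open AffInc

/-- pointwise inequality from the two polynomial certificates -/
lemma point (C w m R L v : ℝ) (hL : 0 < L) (hv0 : 0 ≤ v) (hvL : v ≤ L) (hw : 0 ≤ w)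
    (h1 : v ≤ 1 → 0 ≤ ((4 * C - (m * (v - L / 3) + R / 3) * (2 + v)^2) * (L * (1 + L - v)) - w * ((L - v * (1 + L - v)) * (2 + v)^2)))
    (h0 : 1 ≤ v → 0 ≤ (4 * C - (m * (v - L / 3) + R / 3) * (2 + v)^2)) :
    w * psi L v ≤ C * (4 / (2 + v) ^ 2) - (m * (v - L / 3) + R / 3) := by
  have h2 : 0 < (2 + v) ^ 2 := by positivity
  have h3 : 0 < 1 + L - v := by linarith
  have hid : 1 / (1 + L - v) - v / L = (L - v * (1 + L - v)) / (L * (1 + L - v)) := by
    field_simp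
  rcases le_total v 1 with h | h
  · have hnn : 0 ≤ 1 / (1 + L - v) - v / L := by
      rw [hid]
      apply div_nonneg _ (by positivity)
      nlinarith
    have hp : psi L v = (L - v * (1 + L - v)) / (L * (1 + L - v)) := by
      unfold psi; rw [max_eq_left hnn, hid]
    have key : C * (4 / (2 + v) ^ 2) - (m * (v - L / 3) + R / 3) - w * psi L v =
        ((4 * C - (m * (v - L / 3) + R / 3) * (2 + v)^2) * (L * (1 + L - v)) - w * ((L - v * (1 + L - v)) * (2 + v)^2)) / ((2 + v)^2 * (L * (1 + L - v))) := by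
      rw [hp]; field_simp
    have : 0 ≤ C * (4 / (2 + v) ^ 2) - (m * (v - L / 3) + R / 3) - w * psi L v := by
      rw [key]; exact div_nonneg (h1 h) (by positivity)
    linarith
  · have hnp : 1 / (1 + L - v) - v / L ≤ 0 := by
      rw [hid]
      apply div_nonpos_of_nonpos_of_nonneg _ (by positivity)
      nlinarith
    have hp : psi L v = 0 := by unfold psi; rw [max_eq_right hnp]
    have key : C * (4 / (2 + v) ^ 2) - (m * (v - L / 3) + R / 3) =
        (4 * C - (m * (v - L / 3) + R / 3) * (2 + v)^2) / (2 + v)^2 := by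
      field_simp
    rw [hp, key, mul_zero]
    exact div_nonneg (h0 h) h2.le

lemma piece (C w m R l0 l1 : ℝ) (hl0 : 0 < l0) (hw : 0 ≤ w)
    (h1 : ∀ L v, l0 ≤ L → L ≤ l1 → 0 ≤ v → v ≤ 1 → v ≤ l1 → 0 ≤ ((4 * C - (m * (v - L / 3) + R / 3) * (2 + v)^2) * (L * (1 + L - v)) - w * ((L - v * (1 + L - v)) * (2 + v)^2)))
    (h0 : ∀ L v, l0 ≤ L → L ≤ l1 → 1 ≤ v → v ≤ l1 → 0 ≤ (4 * C - (m * (v - L / 3) + R / 3) * (2 + v)^2))
    (n : Fin 3 → ℝ) (hn : ∀ i, 0 ≤ n i) (hL0 : l0 ≤ ∑ i, n i) (hL1 : ∑ i, n i ≤ l1) :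
    w * AA n ≤ C * (4 - QQ n) - R := by
  have hs : ∑ i, n i = n 0 + n 1 + n 2 := Fin.sum_univ_three _
  have hle : ∀ i, n i ≤ ∑ k, n k := fun i => Finset.single_le_sum (fun k _ => hn k) (Finset.mem_univ i)
  have hp : ∀ i, w * psi (∑ k, n k) (n i) ≤ C * (4 / (2 + n i) ^ 2) - (m * (n i - (∑ k, n k) / 3) + R / 3) := by
    intro i
    apply point C w m R _ _ (by linarith) (hn i) (hle i) hw
    · intro h; exact h1 _ _ hL0 hL1 (hn i) h ((hle i).trans hL1)
    · intro h; exact h0 _ _ hL0 hL1 h ((hle i).trans hL1)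
  have e0 := hp 0
  have e1 := hp 1
  have e2 := hp 2
  unfold AA QQ
  simp only [Fin.sum_univ_three] at *
  have : m * (n 0 - (n 0 + n 1 + n 2) / 3) + m * (n 1 - (n 0 + n 1 + n 2) / 3) + m * (n 2 - (n 0 + n 1 + n 2) / 3) = 0 := by ring
  linarith

lemma UA0_piece (n : Fin 3 → ℝ) (hn : ∀ i, 0 ≤ n i) (hL0 : (3/5) ≤ ∑ i, n i) (hL1 : ∑ i, n i ≤ (7/10)) :
    (3/10) * AA n ≤ (77/200) * (4 - QQ n) - (241/400) := by
  apply piece (77/200) (3/10) (11/500) (241/400) (3/5) (7/10) (by norm_num) (by norm_num) _ _ n hn hL0 hL1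
  · intro L v a b c d e
    have := UA0_p1 L v a b c (by linarith)
    linarith
  · intro L v a b c d
    exfalso; linarith

lemma UA1_piece (n : Fin 3 → ℝ) (hn : ∀ i, 0 ≤ n i) (hL0 : (7/10) ≤ ∑ i, n i) (hL1 : ∑ i, n i ≤ (4/5)) :
    (26/85) * AA n ≤ (77/200) * (4 - QQ n) - (8603/14450) := by
  apply piece (77/200) (26/85) (-(1/125)) (8603/14450) (7/10) (4/5) (by norm_num) (by norm_num) _ _ n hn hL0 hL1
  · intro L v a b c d e
    have := UA1_p1 L v a b c (by linarith)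
    linarith
  · intro L v a b c d
    exfalso; linarith

lemma UA2_piece (n : Fin 3 → ℝ) (hn : ∀ i, 0 ≤ n i) (hL0 : (4/5) ≤ ∑ i, n i) (hL1 : ∑ i, n i ≤ (9/10)) :
    (14/45) * AA n ≤ (77/200) * (4 - QQ n) - (2387/4050) := by
  apply piece (77/200) (14/45) (-(3/100)) (2387/4050) (4/5) (9/10) (by norm_num) (by norm_num) _ _ n hn hL0 hL1
  · intro L v a b c d e
    have := UA2_p1 L v a b c (by linarith)
    linarith
  · intro L v a b c d
    exfalso; linarith

lemma UA3_piece (n : Fin 3 → ℝ) (hn : ∀ i, 0 ≤ n i) (hL0 : (9/10) ≤ ∑ i, n i) (hL1 : ∑ i, n i ≤ 1) :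
    (6/19) * AA n ≤ (77/200) * (4 - QQ n) - (10547/18050) := by
  apply piece (77/200) (6/19) (-(9/200)) (10547/18050) (9/10) 1 (by norm_num) (by norm_num) _ _ n hn hL0 hL1
  · intro L v a b c d e
    have := UA3_p1 L v a b c (by linarith)
    linarith
  · intro L v a b c d
    have hv : v = 1 := le_antisymm d c
    subst hv
    nlinarith

lemma UA4_piece (n : Fin 3 → ℝ) (hn : ∀ i, 0 ≤ n i) (hL0 : 1 ≤ ∑ i, n i) (hL1 : ∑ i, n i ≤ (11/10)) :
    (8/25) * AA n ≤ (77/200) * (4 - QQ n) - (29/50) := by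
  apply piece (77/200) (8/25) (-(11/200)) (29/50) 1 (11/10) (by norm_num) (by norm_num) _ _ n hn hL0 hL1
  · intro L v a b c d e
    have := UA4_p1 L v a b c (by linarith)
    linarith
  · intro L v a b c d
    have := UA4_p0 L v a b c d
    linarith

lemma UA5_piece (n : Fin 3 → ℝ) (hn : ∀ i, 0 ≤ n i) (hL0 : (11/10) ≤ ∑ i, n i) (hL1 : ∑ i, n i ≤ (6/5)) :
    (34/105) * AA n ≤ (77/200) * (4 - QQ n) - (12707/22050) := by
  apply piece (77/200) (34/105) (-(31/500)) (12707/22050) (11/10) (6/5) (by norm_num) (by norm_num) _ _ n hn hL0 hL1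
  · intro L v a b c d e
    have := UA5_p1 L v a b c (by linarith)
    linarith
  · intro L v a b c d
    have := UA5_p0 L v a b c d
    linarith

lemma UA6_piece (n : Fin 3 → ℝ) (hn : ∀ i, 0 ≤ n i) (hL0 : (6/5) ≤ ∑ i, n i) (hL1 : ∑ i, n i ≤ (13/10)) :
    (18/55) * AA n ≤ (77/200) * (4 - QQ n) - (3467/6050) := by
  apply piece (77/200) (18/55) (-(67/1000)) (3467/6050) (6/5) (13/10) (by norm_num) (by norm_num) _ _ n hn hL0 hL1
  · intro L v a b c d e
    have := UA6_p1 L v a b c (by linarith)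
    linarith
  · intro L v a b c d
    have := UA6_p0 L v a b c d
    linarith

lemma UZ0_piece (n : Fin 3 → ℝ) (hn : ∀ i, 0 ≤ n i) (hL0 : (1/2) ≤ ∑ i, n i) (hL1 : ∑ i, n i ≤ (3/5)) :
    (7/27) * AA n ≤ (4141/10000) * (4 - QQ n) - (142921/202500) := by
  apply piece (4141/10000) (7/27) 0 (142921/202500) (1/2) (3/5) (by norm_num) (by norm_num) _ _ n hn hL0 hL1
  · intro L v a b c d e
    have := UZ0_p1 L v a b c (by linarith)
    linarith
  · intro L v a b c d
    exfalso; linarith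

lemma UB0_piece (n : Fin 3 → ℝ) (hn : ∀ i, 0 ≤ n i) (hL0 : (13/10) ≤ ∑ i, n i) (hL1 : ∑ i, n i ≤ (7/5)) :
    1 * AA n ≤ (827/1000) * (4 - QQ n) - (2063801/2000000) := by
  apply piece (827/1000) 1 (-(31/500)) (2063801/2000000) (13/10) (7/5) (by norm_num) (by norm_num) _ _ n hn hL0 hL1
  · intro L v a b c d e
    have := UB0_p1 L v a b c (by linarith)
    linarith
  · intro L v a b c d
    have := UB0_p0 L v a b c d
    linarith

lemma UB1_piece (n : Fin 3 → ℝ) (hn : ∀ i, 0 ≤ n i) (hL0 : (7/5) ≤ ∑ i, n i) (hL1 : ∑ i, n i ≤ (7/4)) :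
    1 * AA n ≤ (827/1000) * (4 - QQ n) - (2063801/2000000) := by
  apply piece (827/1000) 1 (-(12/125)) (2063801/2000000) (7/5) (7/4) (by norm_num) (by norm_num) _ _ n hn hL0 hL1
  · intro L v a b c d e
    have := UB1_p1 L v a b c (by linarith)
    linarith
  · intro L v a b c d
    have := UB1_p0 L v a b c d
    linarith

lemma UB2_piece (n : Fin 3 → ℝ) (hn : ∀ i, 0 ≤ n i) (hL0 : (7/4) ≤ ∑ i, n i) (hL1 : ∑ i, n i ≤ (23/10)) :
    1 * AA n ≤ (827/1000) * (4 - QQ n) - (2063801/2000000) := by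
  apply piece (827/1000) 1 (-(13/100)) (2063801/2000000) (7/4) (23/10) (by norm_num) (by norm_num) _ _ n hn hL0 hL1
  · intro L v a b c d e
    have := UB2_p1 L v a b c (by linarith)
    linarith
  · intro L v a b c d
    have := UB2_p0 L v a b c d
    linarith

lemma UB3_piece (n : Fin 3 → ℝ) (hn : ∀ i, 0 ≤ n i) (hL0 : (23/10) ≤ ∑ i, n i) (hL1 : ∑ i, n i ≤ (27/10)) :
    1 * AA n ≤ (827/1000) * (4 - QQ n) - (2063801/2000000) := by
  apply piece (827/1000) 1 (-(137/1000)) (2063801/2000000) (23/10) (27/10) (by norm_num) (by norm_num) _ _ n hn hL0 hL1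
  · intro L v a b c d e
    have := UB3_p1 L v a b c (by linarith)
    linarith
  · intro L v a b c d
    have := UB3_p0 L v a b c d
    linarith

lemma UB4_piece (n : Fin 3 → ℝ) (hn : ∀ i, 0 ≤ n i) (hL0 : (27/10) ≤ ∑ i, n i) (hL1 : ∑ i, n i ≤ (29/10)) :
    1 * AA n ≤ (13/20) * (4 - QQ n) - (30079/40000) := by
  apply piece (13/20) 1 (-(173/2000)) (30079/40000) (27/10) (29/10) (by norm_num) (by norm_num) _ _ n hn hL0 hL1
  · intro L v a b c d e
    have := UB4_p1 L v a b c (by linarith)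
    linarith
  · intro L v a b c d
    have := UB4_p0 L v a b c d
    linarith

lemma UB5_piece (n : Fin 3 → ℝ) (hn : ∀ i, 0 ≤ n i) (hL0 : (29/10) ≤ ∑ i, n i) (hL1 : ∑ i, n i ≤ (61/20)) :
    1 * AA n ≤ (3/5) * (4 - QQ n) - (6729/10000) := by
  apply piece (3/5) 1 (-(153/2000)) (6729/10000) (29/10) (61/20) (by norm_num) (by norm_num) _ _ n hn hL0 hL1
  · intro L v a b c d e
    have := UB5_p1 L v a b c (by linarith)
    linarith
  · intro L v a b c d
    have := UB5_p0 L v a b c d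
    linarith

lemma UB6_piece (n : Fin 3 → ℝ) (hn : ∀ i, 0 ≤ n i) (hL0 : (61/20) ≤ ∑ i, n i) (hL1 : ∑ i, n i ≤ (63/20)) :
    1 * AA n ≤ (11/20) * (4 - QQ n) - (23753/40000) := by
  apply piece (11/20) 1 (-(129/2000)) (23753/40000) (61/20) (63/20) (by norm_num) (by norm_num) _ _ n hn hL0 hL1
  · intro L v a b c d e
    have := UB6_p1 L v a b c (by linarith)
    linarith
  · intro L v a b c d
    have := UB6_p0 L v a b c d
    linarith

lemma UB7_piece (n : Fin 3 → ℝ) (hn : ∀ i, 0 ≤ n i) (hL0 : (63/20) ≤ ∑ i, n i) (hL1 : ∑ i, n i ≤ (33/10)) :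
    1 * AA n ≤ (1/2) * (4 - QQ n) - (2059/4000) := by
  apply piece (1/2) 1 (-(53/1000)) (2059/4000) (63/20) (33/10) (by norm_num) (by norm_num) _ _ n hn hL0 hL1
  · intro L v a b c d e
    have := UB7_p1 L v a b c (by linarith)
    linarith
  · intro L v a b c d
    have := UB7_p0 L v a b c d
    linarith

lemma UB8_piece (n : Fin 3 → ℝ) (hn : ∀ i, 0 ≤ n i) (hL0 : (33/10) ≤ ∑ i, n i) (hL1 : ∑ i, n i ≤ (7/2)) :
    1 * AA n ≤ (9/20) * (4 - QQ n) - (17427/40000) := by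
  apply piece (9/20) 1 (-(87/2000)) (17427/40000) (33/10) (7/2) (by norm_num) (by norm_num) _ _ n hn hL0 hL1
  · intro L v a b c d e
    have := UB8_p1 L v a b c (by linarith)
    linarith
  · intro L v a b c d
    have := UB8_p0 L v a b c d
    linarith

lemma UB9_piece (n : Fin 3 → ℝ) (hn : ∀ i, 0 ≤ n i) (hL0 : (7/2) ≤ ∑ i, n i) (hL1 : ∑ i, n i ≤ (19/5)) :
    1 * AA n ≤ (2/5) * (4 - QQ n) - (1783/5000) := by
  apply piece (2/5) 1 (-(17/500)) (1783/5000) (7/2) (19/5) (by norm_num) (by norm_num) _ _ n hn hL0 hL1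
  · intro L v a b c d e
    have := UB9_p1 L v a b c (by linarith)
    linarith
  · intro L v a b c d
    have := UB9_p0 L v a b c d
    linarith

lemma UB10_piece (n : Fin 3 → ℝ) (hn : ∀ i, 0 ≤ n i) (hL0 : (19/5) ≤ ∑ i, n i) (hL1 : ∑ i, n i ≤ (43/10)) :
    1 * AA n ≤ (7/20) * (4 - QQ n) - (11101/40000) := by
  apply piece (7/20) 1 (-(13/500)) (11101/40000) (19/5) (43/10) (by norm_num) (by norm_num) _ _ n hn hL0 hL1
  · intro L v a b c d e
    have := UB10_p1 L v a b c (by linarith)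
    linarith
  · intro L v a b c d
    have := UB10_p0 L v a b c d
    linarith

lemma UB11_piece (n : Fin 3 → ℝ) (hn : ∀ i, 0 ≤ n i) (hL0 : (43/10) ≤ ∑ i, n i) (hL1 : ∑ i, n i ≤ (63/10)) :
    1 * AA n ≤ (1/4) * (4 - QQ n) - (191/1600) := by
  apply piece (1/4) 1 (-(1/100)) (191/1600) (43/10) (63/10) (by norm_num) (by norm_num) _ _ n hn hL0 hL1
  · intro L v a b c d e
    have := UB11_p1 L v a b c (by linarith)
    linarith
  · intro L v a b c d
    have := UB11_p0 L v a b c d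
    linarith

end AffInc.Cert
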