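import Pool.Agent.Helper72.AI.Stmts

set_option autoImplicit false

/-! Transfer between the Euclidean plane and `ℝ × ℝ` for MP_870acd_co. -/

namespace AffInc

open MeasureTheory

/-- The Euclidean plane. -/
abbrev Plane := EuclideanSpace ℝ (Fin 2)

/-- A convex figure: a compact convex subset of the plane with nonempty interior. -/
def ConvexFigure (F : Set Plane) : Prop := IsCompact F ∧ Convex ℝ F ∧ (interior F).Nonempty

/-- The area of a planar set. -/
noncomputable def planeArea (S : Set Plane) : ℝ := (volume S).toReal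

/-- `F'` is an affine image of `F`: the image under a nonsingular affine map of the plane. -/
def IsAffineImage (F F' : Set Plane) : Prop := ∃ A : Plane ≃ᵃ[ℝ] Plane, F' = A '' F

/-- The area ratios `|F'| / |G|` of the affine images `F'` of `F` contained in `G`. -/
def ratios (F G : Set Plane) : Set ℝ :=
  {q | ∃ F' : Set Plane, IsAffineImage F F' ∧ F' ⊆ G ∧ q = planeArea F' / planeArea G}

/-- `f F G`: the maximum of the area ratios. -/
noncomputable def f (F G : Set Plane) : ℝ := sSup (ratios F G)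

/-- The infimum `m*` of `f F G` over all pairs of convex figures. -/
noncomputable def mStar : ℝ :=
  sInf {m | ∃ F G : Set Plane, ConvexFigure F ∧ ConvexFigure G ∧ m = f F G}

/-- `F` is a (nondegenerate) triangle. -/
def IsTriangle (F : Set Plane) : Prop :=
  ∃ v : Fin 3 → Plane, AffineIndependent ℝ v ∧ F = convexHull ℝ (Set.range v)

/-- `G` is an ellipse (with its interior): an affine image of the closed unit disc. -/
def IsEllipse (G : Set Plane) : Prop := IsAffineImage (Metric.closedBall (0 : Plane) 1) G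

/-- coordinates -/
noncomputable def toP : Plane ≃ₗ[ℝ] (ℝ × ℝ) where
  toFun x := (x 0, x 1)
  invFun p := WithLp.toLp 2 ![p.1, p.2]
  left_inv x := by
    ext i; fin_cases i <;> simp
  right_inv p := by simp
  map_add' x y := by simp
  map_smul' c x := by simp

lemma toP_apply (x : Plane) : toP x = (x 0, x 1) := rfl

noncomputable def toPm : Plane ≃ᵐ (ℝ × ℝ) :=
  (MeasurableEquiv.toLp 2 (Fin 2 → ℝ)).symm.trans (MeasurableEquiv.finTwoArrow)

lemma toPm_apply (x : Plane) : toPm x = toP x := rfl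

lemma toPm_mp : MeasurePreserving toPm (volume : Measure Plane) (volume : Measure (ℝ × ℝ)) := by
  have h1 : MeasurePreserving (MeasurableEquiv.toLp 2 (Fin 2 → ℝ)).symm
      (volume : Measure Plane) (volume : Measure (Fin 2 → ℝ)) :=
    EuclideanSpace.volume_preserving_symm_measurableEquiv_toLp (Fin 2)
  have h2 := volume_preserving_finTwoArrow ℝ
  exact h2.comp h1

lemma volume_toP (S : Set Plane) : volume (toP '' S) = volume S := by
  have h1 : toP '' S = toPm.symm ⁻¹' S := by
    have : toP '' S = toPm '' S := by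
      apply Set.image_congr; intro x _; rfl
    rw [this]; exact toPm.image_eq_preimage_symm S
  rw [h1]
  exact (toPm_mp.symm).measure_preimage_equiv S

lemma area_toP (S : Set Plane) : area (toP '' S) = planeArea S := by
  unfold area planeArea; rw [volume_toP]

noncomputable def toPh : Plane ≃L[ℝ] (ℝ × ℝ) := toP.toContinuousLinearEquiv

lemma toPh_apply (x : Plane) : toPh x = toP x := rfl

lemma fig_iff (F : Set Plane) : Fig (toP '' F) ↔ ConvexFigure F := by
  have himg : toP '' F = toPh '' F := rfl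
  constructor
  · intro h
    have hF : F = toPh.symm '' (toPh '' F) := by
      ext x
      simp
    refine ⟨?_, ?_, ?_⟩
    · rw [hF]; exact (himg ▸ h.cpt).image toPh.symm.continuous
    · rw [hF]
      exact (himg ▸ h.cvx).linear_image toPh.symm.toLinearEquiv.toLinearMap
    · rw [hF]
      have : interior (toPh.symm '' (toPh '' F)) = toPh.symm '' interior (toPh '' F) :=
        (toPh.symm.toHomeomorph.image_interior _).symm
      rw [this]; exact (himg ▸ h.int).image _
  · rintro ⟨h1, h2, h3⟩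
    refine ⟨?_, ?_, ?_⟩
    · rw [himg]; exact h1.image toPh.continuous
    · exact h2.linear_image toP.toLinearMap
    · rw [himg]
      have : interior (toPh '' F) = toPh '' interior F := (toPh.toHomeomorph.image_interior _).symm
      rw [this]; exact h3.image _

/-- `T X` as an affine equivalence of `ℝ × ℝ` -/
noncomputable def TA (X : Fin 3 → ℝ × ℝ) (h : det3 X ≠ 0) : (ℝ × ℝ) ≃ᵃ[ℝ] (ℝ × ℝ) :=
  AffineEquiv.ofBijective (φ := ((Tlin X).toAffineMap + AffineMap.const ℝ (ℝ × ℝ) (X 0)))
    (by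
      have : (((Tlin X).toAffineMap + AffineMap.const ℝ (ℝ × ℝ) (X 0) : (ℝ × ℝ) →ᵃ[ℝ] (ℝ × ℝ)) : (ℝ × ℝ) → (ℝ × ℝ)) = T X := by
        funext p; rw [T_eq_lin]; rfl
      rw [this]; exact T_bijective X h)

lemma TA_apply (X : Fin 3 → ℝ × ℝ) (h : det3 X ≠ 0) (p : ℝ × ℝ) : TA X h p = T X p := by
  rw [T_eq_lin]; rfl

/-- every affine equivalence of `ℝ × ℝ` is some `T X` -/
lemma exists_T (A : (ℝ × ℝ) ≃ᵃ[ℝ] (ℝ × ℝ)) : ∃ X : Fin 3 → ℝ × ℝ, det3 X ≠ 0 ∧ ∀ p, A p = T X p := by
  let X : Fin 3 → ℝ × ℝ := fun i => A (S0 i)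
  have hX : ∀ p, A p = T X p := by
    intro p
    have hlin : ∀ q : ℝ × ℝ, A q = A.linear q + A 0 := by
      intro q
      have := A.map_vadd 0 q
      simpa using this
    have hp : p = p.1 • ((1, 0) : ℝ × ℝ) + p.2 • ((0, 1) : ℝ × ℝ) := by ext <;> simp
    have h0 : X 0 = A 0 := rfl
    have h1 : X 1 = A.linear (1, 0) + A 0 := hlin _
    have h2 : X 2 = A.linear (0, 1) + A 0 := hlin _
    have h3 : A p = p.1 • A.linear (1, 0) + p.2 • A.linear (0, 1) + A 0 := by
      rw [hlin p]
      conv_lhs => rw [hp]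
      rw [map_add, map_smul, map_smul]
    rw [h3, T_def, h0, h1, h2]
    ext
    · simp; ring
    · simp; ring
  refine ⟨X, ?_, hX⟩
  intro h0
  -- area argument: `T X` is bijective so the determinant is nonzero
  have hv := volume_T X Set.univ
  have himg : T X '' Set.univ = Set.univ := by
    rw [Set.image_univ]
    apply Set.range_eq_univ.2
    intro q
    obtain ⟨p, hp⟩ := A.surjective q
    exact ⟨p, by rw [← hX]; exact hp⟩
  rw [himg, h0] at hv
  simp at hv

lemma affineImage_iff (F F' : Set Plane) : IsAffineImage F F' ↔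
    ∃ X : Fin 3 → ℝ × ℝ, det3 X ≠ 0 ∧ toP '' F' = T X '' (toP '' F) := by
  constructor
  · rintro ⟨A, rfl⟩
    obtain ⟨X, hX, hA⟩ := exists_T ((toP.symm.toAffineEquiv.trans A).trans toP.toAffineEquiv)
    refine ⟨X, hX, ?_⟩
    rw [Set.image_image, Set.image_image]
    apply Set.image_congr
    intro x _
    have := hA (toP x)
    rw [← this]
    simp
  · rintro ⟨X, hX, h⟩
    refine ⟨(toP.toAffineEquiv.trans (TA X hX)).trans toP.symm.toAffineEquiv, ?_⟩
    have h1 : F' = toP.symm '' (toP '' F') := by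
      rw [Set.image_image]; simp
    rw [h1, h, Set.image_image, Set.image_image]
    apply Set.image_congr
    intro x _
    simp [TA_apply]

lemma toP_injective : Function.Injective (toP : Plane → ℝ × ℝ) := toP.injective

lemma det3_ne_iff (v : Fin 3 → Plane) :
    AffineIndependent ℝ v ↔ det3 (fun i => toP (v i)) ≠ 0 := by
  rw [affineIndependent_iff_linearIndependent_vsub ℝ v (0 : Fin 3)]
  have hli : LinearIndependent ℝ (fun i : {x : Fin 3 // x ≠ 0} => (v i -ᵥ v 0 : Plane)) ↔
      LinearIndependent ℝ ![v 1 - v 0, v 2 - v 0] := by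
    let e : Fin 2 ≃ {x : Fin 3 // x ≠ 0} :=
      { toFun := ![⟨1, by decide⟩, ⟨2, by decide⟩]
        invFun := fun x => if x.1 = 1 then 0 else 1
        left_inv := by decide
        right_inv := by decide }
    rw [← linearIndependent_equiv e]
    have : (fun i : {x : Fin 3 // x ≠ 0} => (v i -ᵥ v 0 : Plane)) ∘ e = ![v 1 - v 0, v 2 - v 0] := by
      funext i; fin_cases i <;> rfl
    rw [this]
  rw [hli, LinearIndependent.pair_iff]
  constructor
  · intro h h0
    simp only [det3, toP_apply] at h0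
    -- find a relation
    have key := h (v 2 1 - v 0 1) (-(v 1 1 - v 0 1)) (by
      ext i; fin_cases i
      · simp; linarith
      · simp; ring)
    have key2 := h (v 2 0 - v 0 0) (-(v 1 0 - v 0 0)) (by
      ext i; fin_cases i
      · simp; ring
      · simp; linarith)
    obtain ⟨k1, k2⟩ := key
    obtain ⟨k3, k4⟩ := key2
    have := h 1 0 (by
      ext i; fin_cases i
      · simp; linarith
      · simp; linarith)
    exact one_ne_zero this.1
  · intro h a b hab
    have e0 := congrArg (fun z : Plane => z 0) hab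
    have e1 := congrArg (fun z : Plane => z 1) hab
    simp only [PiLp.add_apply, PiLp.smul_apply, PiLp.sub_apply, PiLp.zero_apply, smul_eq_mul] at e0 e1
    simp only [det3, toP_apply] at h
    have ha : a * ((v 1 0 - v 0 0) * (v 2 1 - v 0 1) - (v 1 1 - v 0 1) * (v 2 0 - v 0 0)) = 0 := by
      linear_combination (v 2 1 - v 0 1) * e0 - (v 2 0 - v 0 0) * e1
    have hb : b * ((v 1 0 - v 0 0) * (v 2 1 - v 0 1) - (v 1 1 - v 0 1) * (v 2 0 - v 0 0)) = 0 := by
      linear_combination (v 1 0 - v 0 0) * e1 - (v 1 1 - v 0 1) * e0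
    exact ⟨(mul_eq_zero.1 ha).resolve_right h, (mul_eq_zero.1 hb).resolve_right h⟩

lemma T_image_hull (X Y : Fin 3 → ℝ × ℝ) :
    T X '' convexHull ℝ (Set.range Y) = convexHull ℝ (Set.range (fun i => T X (Y i))) := by
  have h1 : (T X : ℝ × ℝ → ℝ × ℝ) = ((Tlin X).toAffineMap + AffineMap.const ℝ (ℝ × ℝ) (X 0) : (ℝ × ℝ) →ᵃ[ℝ] (ℝ × ℝ)) := by
    funext p; rw [T_eq_lin]; rfl
  rw [h1, AffineMap.image_convexHull, ← Set.range_comp]
  rfl

lemma triangle_iff (F : Set Plane) : IsTriangle F ↔
    ∃ Y : Fin 3 → ℝ × ℝ, det3 Y ≠ 0 ∧ toP '' F = T Y '' Tri := by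
  have hT : ∀ Y : Fin 3 → ℝ × ℝ, T Y '' Tri = convexHull ℝ (Set.range Y) := by
    intro Y
    rw [Tri_eq_hull, T_image_hull]
    congr 2
    funext i
    fin_cases i <;> (rw [T_def]; simp [S0])
  constructor
  · rintro ⟨v, hv, rfl⟩
    refine ⟨fun i => toP (v i), (det3_ne_iff v).1 hv, ?_⟩
    rw [hT]
    have : (toP : Plane → ℝ × ℝ) = toP.toLinearMap := rfl
    rw [this, LinearMap.image_convexHull, ← Set.range_comp]
    rfl
  · rintro ⟨Y, hY, h⟩
    refine ⟨fun i => toP.symm (Y i), ?_, ?_⟩
    · rw [det3_ne_iff]; simpa using hY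
    · have h1 : F = toP.symm '' (toP '' F) := by
        rw [Set.image_image]; simp
      rw [h1, h, hT]
      have : (toP.symm : ℝ × ℝ → Plane) = toP.symm.toLinearMap := rfl
      rw [this, LinearMap.image_convexHull, ← Set.range_comp]
      rfl

lemma ball_eq : toP '' (Metric.closedBall (0 : Plane) 1) = Disc := by
  ext p
  constructor
  · rintro ⟨x, hx, rfl⟩
    rw [mem_closedBall_zero_iff, EuclideanSpace.norm_eq, Real.sqrt_le_iff] at hx
    simpa [Disc, toP_apply] using hx
  · intro hp
    refine ⟨toP.symm p, ?_, by simp⟩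
    rw [mem_closedBall_zero_iff, EuclideanSpace.norm_eq, Real.sqrt_le_iff]
    have h0 : (toP.symm p) 0 = p.1 := rfl
    have h1 : (toP.symm p) 1 = p.2 := rfl
    simpa [Disc, h0, h1] using hp

lemma ellipse_iff (G : Set Plane) : IsEllipse G ↔
    ∃ Z : Fin 3 → ℝ × ℝ, det3 Z ≠ 0 ∧ toP '' G = T Z '' Disc := by
  unfold IsEllipse
  rw [affineImage_iff, ball_eq]

lemma mem_ratios (F G : Set Plane) (q : ℝ) : q ∈ ratios F G ↔
    ∃ X : Fin 3 → ℝ × ℝ, det3 X ≠ 0 ∧ T X '' (toP '' F) ⊆ toP '' G ∧
      q = area (T X '' (toP '' F)) / area (toP '' G) := by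
  constructor
  · rintro ⟨F', h1, h2, h3⟩
    obtain ⟨X, hX, hF⟩ := (affineImage_iff F F').1 h1
    refine ⟨X, hX, ?_, ?_⟩
    · rw [← hF]; exact Set.image_mono h2
    · rw [h3, ← hF, area_toP, area_toP]
  · rintro ⟨X, hX, h2, h3⟩
    refine ⟨toP.symm '' (T X '' (toP '' F)), ?_, ?_, ?_⟩
    · rw [affineImage_iff]
      refine ⟨X, hX, ?_⟩
      rw [Set.image_image toP]; simp
    · rintro _ ⟨y, hy, rfl⟩
      obtain ⟨x, hx, hxy⟩ := h2 hy
      rw [← hxy]; simpa using hx
    · rw [h3, ← area_toP (toP.symm '' _), ← area_toP]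
      congr 2
      rw [Set.image_image toP]; simp

end AffInc
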