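import Pool.Agent.Helper72.AI.Stmts

set_option autoImplicit false

/-! Statements of the packets for the core inequality of MP_870acd_co. -/

namespace AffInc

/-- `psi L v = max (1/(1+L-v) - v/L) 0`; this is `(1 - v/L) * (1-v)⁺/(1+L-v)` -/
noncomputable def psi (L v : ℝ) : ℝ := max (1 / (1 + L - v) - v / L) 0

/-- `ε_i` -/
noncomputable def eps (n : Fin 3 → ℝ) (i : Fin 3) : ℝ := max ((1 - n i) / (1 + ∑ k, n k - n i)) 0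

/-- `A = Σ (1 - c_i) ε_i`, `c_i = n_i / L` -/
noncomputable def AA (n : Fin 3 → ℝ) : ℝ := ∑ i, psi (∑ k, n k) (n i)

/-- `B = Σ c_k ε_i ε_j` -/
noncomputable def BB (n : Fin 3 → ℝ) : ℝ :=
  (n 0 * (eps n 1 * eps n 2) + n 1 * (eps n 0 * eps n 2) + n 2 * (eps n 0 * eps n 1)) / ∑ k, n k

/-- `Q = 4 - Σ 4/(2+n_i)²` -/
noncomputable def QQ (n : Fin 3 → ℝ) : ℝ := 4 - ∑ i, 4 / (2 + n i) ^ 2

/-- elementary properties of `eps`, `AA`, `BB` (`N_i = L - n_i`) -/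
def C_elem : Prop := ∀ n : Fin 3 → ℝ, (∀ i, 0 ≤ n i) → 0 < ∑ i, n i →
  (∀ i, 0 ≤ eps n i) ∧ (∀ i, eps n i * (1 + ∑ k, n k) ≤ 1) ∧
  (∀ i, 1 - n i ≤ eps n i * (1 + ∑ k, n k - n i)) ∧
  (AA n = ∑ i, (1 - n i / ∑ k, n k) * eps n i) ∧ 0 ≤ AA n ∧ 0 ≤ BB n ∧
  (∀ e : ℝ, (∀ i, eps n i ≤ e) → e * AA n - e ^ 2 ≤ BB n ∧ 2 * BB n ≤ e * AA n)

/-- a placement for a smaller (proportional) vector is a placement for the larger one -/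
def C_scale : Prop := ∀ (n : Fin 3 → ℝ) (s s' V : ℝ) (w : Fin 3 → ℝ), 0 < s' → s' ≤ s →
  (∀ i, w i ≤ s) → GoodPl n s' (fun i => (s' / s) * w i) V → GoodPl n s w V

/-- basic mode, averaged over the six permutations:
`φ_i = (1+s)(1 - ε_i (s - w_i))/(1 + w_i)`, `r_i = (s - w_i)/(1+s)` -/
def C_basic : Prop := ∀ (n t : Fin 3 → ℝ) (s : ℝ), (∀ i, 0 ≤ n i) → (∀ i, 0 ≤ t i) →
  s = ∑ i, t i → 0 < s → s ≤ 1 → s ≤ ∑ i, n i →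
  ∃ σ : Equiv.Perm (Fin 3), GoodPl n s (fun i => t (σ i))
    (((1 + s) / (1 + s / 3)) ^ 2 * (1 - 2 / 3 * s * AA n + 4 / 9 * s ^ 2 * BB n))

/-- mode 3, averaged over the six permutations:
`φ_i = (1+s)(1 - ε_i (s - w_i)/(1 + min_{j≠i} w_j))/(1 + w_i)`, `r_i = (s - w_i)/(1+s)` -/
def C_mode3 : Prop := ∀ (n t : Fin 3 → ℝ) (s : ℝ), (∀ i, 0 ≤ n i) → 0 ≤ t 2 → t 2 ≤ t 1 → t 1 ≤ t 0 →
  s = ∑ i, t i → 0 < s → s ≤ 1 → s ≤ ∑ i, n i →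
  ∃ σ : Equiv.Perm (Fin 3), GoodPl n s (fun i => t (σ i))
    ((1 + s) ^ 2 / (3 * ((1 + t 0) * (1 + t 1) * (1 + t 2)))
      * (3 + s - AA n * (2 * s + t 0 ^ 2 - t 2 ^ 2)))

/-- lower bound of `L` in terms of `Q` -/
def C_L : Prop := ∀ n : Fin 3 → ℝ, (∀ i, 0 ≤ n i) → 1.45 ≤ QQ n → 0.5 ≤ ∑ i, n i

/-- lower bound of `Q` in terms of `L` -/
def C_Q : Prop := ∀ n : Fin 3 → ℝ, (∀ i, 0 ≤ n i) → 1.3 ≤ ∑ i, n i → 1.632 ≤ QQ n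

def C_UA0 : Prop := ∀ (n : Fin 3 → ℝ) (L : ℝ), (∀ i, 0 ≤ n i) → L = ∑ i, n i → 0.5 ≤ L → L ≤ 0.6 →
  (1 / 3 - 1 / (9 * (1 + L))) * AA n ≤ 1 - 1 / (9 * (1 + L) ^ 2) - 0.4141 * QQ n

def C_UA : Prop := ∀ (n : Fin 3 → ℝ) (L : ℝ), (∀ i, 0 ≤ n i) → L = ∑ i, n i → 0.6 ≤ L → L ≤ 1.3 →
  (0.4 - 0.16 / (1 + L)) * AA n ≤ 1 - 0.16 / (1 + L) ^ 2 - 0.385 * QQ n

def C_UB : Prop := ∀ n : Fin 3 → ℝ, (∀ i, 0 ≤ n i) → 1.3 ≤ ∑ i, n i → QQ n ≤ 2.4185 →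
  AA n ≤ 0.276 + 0.827 * (2.4185 - QQ n)

/-- polynomial inequality for mode 3 -/
def C_I2 : Prop := ∀ t0 t1 t2 s K A : ℝ, 0 ≤ t2 → t2 ≤ t1 → t1 ≤ t0 → s = t0 + t1 + t2 → 0 < s →
  s ≤ 0.654 → 0.67 ≤ K → K ≤ 1 → A ≤ 0.2761 + 2 * (1 - K) →
  K * (1 + s) * (1 + s / 1000) ≤ (1 + s) ^ 2 / (3 * ((1 + t0) * (1 + t1) * (1 + t2)))
      * (3 + s - A * (2 * s + t0 ^ 2 - t2 ^ 2))

/-- one-variable step for the basic mode (concavity in `s`) -/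
def C_conc : Prop := ∀ s' A B K : ℝ, 0 < s' → s' ≤ 0.6 → 0 ≤ A → 0 ≤ B → 2 * B ≤ 2 / 3 * A → 0 ≤ K → K ≤ 1 →
  K * (1 + 0.654) * (1 + 0.654 / 1000) ≤
    ((1 + s') / (1 + s' / 3)) ^ 2 * (1 - 2 / 3 * s' * A + 4 / 9 * s' ^ 2 * B) →
  ∀ s, 0 < s → s ≤ s' → K * (1 + s) * (1 + s / 1000) ≤
    ((1 + s) / (1 + s / 3)) ^ 2 * (1 - 2 / 3 * s * A + 4 / 9 * s ^ 2 * B)

/-- numerical bounds for `kap` -/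
def C_kap : Prop := 0.41349 < kap ∧ kap < 0.4135 ∧ 4 * kap < 1.654 ∧ 1 < 2.4185 * kap

end AffInc
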