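import Pool.Agent.Helper72.AI.Stmts

set_option autoImplicit false

/-! Sub-packets of `S_ears` for MP_870acd_co. -/

namespace AffInc

def cross (a b : ℝ × ℝ) : ℝ := a.1 * b.2 - a.2 * b.1

/-- supporting line at a vertex between the edge directions `D1` (incoming) and `D2` (outgoing) -/
def E_supp : Prop := ∀ (G : Set (ℝ × ℝ)) (p D1 D2 : ℝ × ℝ) (α β : ℝ), Fig G → p ∈ frontier G →
  0 < cross D1 D2 → 0 < α → 0 < β → p - α • D1 ∈ G → p + β • D2 ∈ G →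
  ∃ y : ℝ, 0 ≤ y ∧ y ≤ 1 ∧ ∀ q ∈ G, 0 ≤ cross (y • D1 + (1 - y) • D2) (q - p)

/-- area of the part of `G` beyond the edge from `p` to `p + l • (D1 + D2)` -/
def E_ear : Prop := ∀ (G : Set (ℝ × ℝ)) (p D1 D2 : ℝ × ℝ) (l y y' : ℝ), Fig G →
  0 < cross D1 D2 → 0 < l → 0 ≤ y → y ≤ 1 → 0 ≤ y' → y' ≤ 1 →
  (∀ q ∈ G, 0 ≤ cross (D1 + (1 - y) • D2) (q - p)) →
  (∀ q ∈ G, 0 ≤ cross (y' • D1 + D2) (q - p - l • (D1 + D2))) →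
  area (G ∩ {q | cross (D1 + D2) (q - p) < 0}) ≤ l ^ 2 * cross D1 D2 / 2 * min y (1 - y')

/-- the linear program -/
def E_lp : Prop := ∀ (y0 y1 y2 y3 y4 y5 w0 w1 w2 c : ℝ), 0 ≤ y0 → y0 ≤ 1 → 0 ≤ y1 → y1 ≤ 1 →
  0 ≤ y2 → y2 ≤ 1 → 0 ≤ y3 → y3 ≤ 1 → 0 ≤ y4 → y4 ≤ 1 → 0 ≤ y5 → y5 ≤ 1 →
  0 ≤ w0 → 0 ≤ w1 → 0 ≤ w2 → w0 + w1 + w2 ≤ c → 2 * w0 ≤ c → 2 * w1 ≤ c → 2 * w2 ≤ c →
  w0 * min y0 (1 - y1) + w1 * min y1 (1 - y2) + w2 * min y2 (1 - y3) +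
  w0 * min y3 (1 - y4) + w1 * min y4 (1 - y5) + w2 * min y5 (1 - y0) ≤ c

end AffInc
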